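import Pool.Agent.V11281.F4.Words

/-!
# The free topological group of a normal space is Hausdorff (ping-pong in the plane)
-/

set_option autoImplicit false

open Set Topology Filter

namespace Pool.Agent.V11281.F4

universe u

namespace Haus

/-- the group of invertible real matrices -/
abbrev M2 : Type := (Matrix (Fin 2) (Fin 2) ℝ)ˣ

/-- the parabolic matrix fixing the direction `p` -/
noncomputable def Hm (p : ℝ) : M2 where
  val := !![1 + 5 * p, -5 * p ^ 2; 5, 1 - 5 * p]
  inv := !![1 - 5 * p, 5 * p ^ 2; -5, 1 + 5 * p]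
  val_inv := by
    ext i j; fin_cases i <;> fin_cases j <;> simp [Matrix.mul_apply, Fin.sum_univ_two] <;> ring
  inv_val := by
    ext i j; fin_cases i <;> fin_cases j <;> simp [Matrix.mul_apply, Fin.sum_univ_two] <;> ring

lemma continuous_Hm {Y : Type*} [TopologicalSpace Y] {f : Y → ℝ} (hf : Continuous f) :
    Continuous fun y => Hm (f y) := by
  rw [Units.continuous_iff]
  constructor
  · refine continuous_matrix fun i j => ?_
    fin_cases i <;> fin_cases j <;> simp [Hm] <;> fun_prop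
  · refine continuous_matrix fun i j => ?_
    fin_cases i <;> fin_cases j <;> simp [Hm] <;> fun_prop

/-- signs -/
def sg (b : Bool) : ℝ := cond b 1 (-1)

lemma sg_mul_self (b : Bool) : sg b * sg b = 1 := by cases b <;> simp [sg]

/-- cones -/
def Cone (p : ℝ) (b : Bool) (u w : ℝ) : Prop :=
  2 * (u - p * w) ^ 2 < sg b * (u - p * w) * w ∧ u - p * w ≠ 0

lemma step_u (p : ℝ) (b : Bool) (A : M2) :
    ((cond b (Hm p) (Hm p)⁻¹ * A : M2) : Matrix (Fin 2) (Fin 2) ℝ) 0 0 =
      (A : Matrix (Fin 2) (Fin 2) ℝ) 0 0 + 5 * sg b * p *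
        ((A : Matrix (Fin 2) (Fin 2) ℝ) 0 0 - p * (A : Matrix (Fin 2) (Fin 2) ℝ) 1 0) := by
  cases b
  · rw [Units.val_mul, Matrix.mul_apply, Fin.sum_univ_two]
    simp [Hm, sg]
    ring
  · rw [Units.val_mul, Matrix.mul_apply, Fin.sum_univ_two]
    simp [Hm, sg]
    ring

lemma step_w (p : ℝ) (b : Bool) (A : M2) :
    ((cond b (Hm p) (Hm p)⁻¹ * A : M2) : Matrix (Fin 2) (Fin 2) ℝ) 1 0 =
      (A : Matrix (Fin 2) (Fin 2) ℝ) 1 0 + 5 * sg b *
        ((A : Matrix (Fin 2) (Fin 2) ℝ) 0 0 - p * (A : Matrix (Fin 2) (Fin 2) ℝ) 1 0) := by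
  cases b
  · rw [Units.val_mul, Matrix.mul_apply, Fin.sum_univ_two]
    simp [Hm, sg]
    ring
  · rw [Units.val_mul, Matrix.mul_apply, Fin.sum_univ_two]
    simp [Hm, sg]
    ring

/-- the ping-pong step -/
lemma step_cone {p : ℝ} {b : Bool} {u w : ℝ} (hq : u - p * w ≠ 0)
    (h : -3 * (u - p * w) ^ 2 < sg b * (u - p * w) * w) :
    Cone p b (u + 5 * sg b * p * (u - p * w)) (w + 5 * sg b * (u - p * w)) := by
  have h1 : (u + 5 * sg b * p * (u - p * w)) - p * (w + 5 * sg b * (u - p * w)) = u - p * w := by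
    ring
  unfold Cone
  rw [h1]
  refine ⟨?_, hq⟩
  have h2 := sg_mul_self b
  have h3 : sg b * (u - p * w) * (w + 5 * sg b * (u - p * w)) =
      sg b * (u - p * w) * w + 5 * (sg b * sg b) * (u - p * w) ^ 2 := by ring
  rw [h3, h2]
  have h4 : 0 < (u - p * w) ^ 2 := by positivity
  linarith

/-- the cones of different directions -/
lemma cone_ne {p p' : ℝ} (hp : 1 ≤ |p - p'|) {b b' : Bool} {u w : ℝ} (h : Cone p' b' u w) :
    u - p * w ≠ 0 ∧ -3 * (u - p * w) ^ 2 < sg b * (u - p * w) * w := by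
  obtain ⟨h1, h2⟩ := h
  have habs : ∀ (c : Bool) (r : ℝ), |sg c * r| = |r| := by
    intro c r
    cases c <;> simp [sg]
  have h3 : 2 * |u - p' * w| ^ 2 < |u - p' * w| * |w| := by
    have h4 : sg b' * (u - p' * w) * w ≤ |u - p' * w| * |w| := by
      refine (le_abs_self _).trans ?_
      rw [abs_mul, habs]
    rw [sq_abs]
    linarith
  have h4 : 2 * |u - p' * w| < |w| := by
    have h5 : 0 < |u - p' * w| := abs_pos.2 h2
    nlinarith
  have h5 : |w| - |u - p' * w| ≤ |u - p * w| := by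
    have h6 : u - p * w = (u - p' * w) - (p - p') * w := by ring
    have h7 : |(p - p') * w| ≤ |u - p' * w| + |u - p * w| := by
      have h8 : (p - p') * w = (u - p' * w) - (u - p * w) := by ring
      rw [h8]
      exact abs_sub _ _
    have h9 : |w| ≤ |(p - p') * w| := by
      rw [abs_mul]
      nlinarith [abs_nonneg w]
    linarith
  have h6 : |w| < 2 * |u - p * w| := by linarith
  have h7 : 0 < |u - p * w| := by
    have := abs_nonneg w
    linarith
  refine ⟨abs_pos.1 h7, ?_⟩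
  have h8 : -(|u - p * w| * |w|) ≤ sg b * (u - p * w) * w := by
    have h9 := neg_abs_le (sg b * (u - p * w) * w)
    rw [abs_mul, habs] at h9
    exact h9
  rw [← sq_abs (u - p * w)]
  nlinarith

variable {X : Type u} [TopologicalSpace X]

/-- the homomorphism -/
noncomputable def hom (p : X → ℝ) : FT X →* M2 := FT.lift fun x => Hm (p x)

lemma hom_cons (p : X → ℝ) (x : X) (b : Bool) (L : List (X × Bool)) :
    hom p (mkL ((x, b) :: L)) = cond b (Hm (p x)) (Hm (p x))⁻¹ * hom p (mkL L) := by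
  rw [mkL_cons, map_mul]
  congr 1
  cases b
  · change hom p (FT.of x)⁻¹ = _
    rw [map_inv]
    exact congrArg _ (lift_of _ _)
  · exact lift_of _ _

lemma hom_cone (p : X → ℝ) (x : X) (b : Bool) (L : List (X × Bool))
    (hp : ∀ y ∈ (x, b) :: L, ∀ z ∈ (x, b) :: L, y.1 ≠ z.1 → 1 ≤ |p y.1 - p z.1|)
    (hL : FreeGroup.IsReduced ((x, b) :: L)) :
    Cone (p x) b ((hom p (mkL ((x, b) :: L)) : Matrix (Fin 2) (Fin 2) ℝ) 0 0)
      ((hom p (mkL ((x, b) :: L)) : Matrix (Fin 2) (Fin 2) ℝ) 1 0) := by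
  induction L generalizing x b with
  | nil =>
    rw [hom_cons, step_u, step_w]
    apply step_cone
    · rw [mkL_nil, map_one]
      simp
    · rw [mkL_nil, map_one]
      simp
  | cons q L ih =>
    obtain ⟨y, c⟩ := q
    rw [hom_cons, step_u, step_w]
    have hL' : FreeGroup.IsReduced ((y, c) :: L) := by
      simp only [FreeGroup.IsReduced, List.isChain_cons_cons] at hL ⊢
      exact hL.2
    have h1 := ih y c (fun a ha b hb => hp a (List.mem_cons_of_mem _ ha) b
      (List.mem_cons_of_mem _ hb)) hL'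
    by_cases hxy : x = y
    · subst hxy
      have hbc : b = c := by
        simp only [FreeGroup.IsReduced, List.isChain_cons_cons] at hL
        exact hL.1 trivial
      subst hbc
      apply step_cone h1.2
      have h2 := h1.1
      have h3 : 0 ≤ ((hom p (mkL ((x, b) :: L)) : Matrix (Fin 2) (Fin 2) ℝ) 0 0 -
        p x * (hom p (mkL ((x, b) :: L)) : Matrix (Fin 2) (Fin 2) ℝ) 1 0) ^ 2 := sq_nonneg _
      linarith
    · have h2 := hp (x, b) (by simp) (y, c) (by simp) hxy
      have h3 := cone_ne (b := b) h2 h1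
      exact step_cone h3.1 h3.2

end Haus

open Haus in
/-- the free topological group of a normal T₁ space is Hausdorff -/
theorem t2 (X : Type u) [TopologicalSpace X] [NormalSpace X] [T1Space X] : T2Space (FT X) := by
  classical
  apply IsTopologicalGroup.t2Space_of_one_sep
  intro w hw
  obtain ⟨p, hpc, hp⟩ : ∃ p : X → ℝ, Continuous p ∧ ∀ y ∈ wd w, ∀ z ∈ wd w, y.1 ≠ z.1 →
      1 ≤ |p y.1 - p z.1| := by
    set F : Finset X := ((wd w).map Prod.fst).toFinset with hF
    let f : C((F : Set X), ℝ) := ⟨fun x => ((F.equivFin x : ℕ) : ℝ), continuous_of_discreteTopology⟩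
    obtain ⟨g, hg⟩ := ContinuousMap.exists_restrict_eq (F.finite_toSet.isClosed) f
    refine ⟨g, g.continuous, fun y hy z hz hyz => ?_⟩
    have hyF : y.1 ∈ (F : Set X) := by
      simp only [hF, List.coe_toFinset, List.mem_map, mem_ofPred_eq]
      exact ⟨y, hy, rfl⟩
    have hzF : z.1 ∈ (F : Set X) := by
      simp only [hF, List.coe_toFinset, List.mem_map, mem_ofPred_eq]
      exact ⟨z, hz, rfl⟩
    have h1 : g y.1 = ((F.equivFin ⟨y.1, hyF⟩ : ℕ) : ℝ) := by
      have := congrArg (fun k => k ⟨y.1, hyF⟩) hg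
      exact this
    have h2 : g z.1 = ((F.equivFin ⟨z.1, hzF⟩ : ℕ) : ℝ) := by
      have := congrArg (fun k => k ⟨z.1, hzF⟩) hg
      exact this
    rw [h1, h2]
    have h3 : (F.equivFin ⟨y.1, hyF⟩ : ℕ) ≠ (F.equivFin ⟨z.1, hzF⟩ : ℕ) := by
      intro h
      apply hyz
      have h4 := F.equivFin.injective (Fin.ext h)
      exact congrArg Subtype.val h4
    have h4 : ((F.equivFin ⟨y.1, hyF⟩ : ℕ) : ℤ) - (F.equivFin ⟨z.1, hzF⟩ : ℕ) ≠ 0 := by
      omega
    have h5 := Int.one_le_abs h4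
    exact_mod_cast h5
  have hcont : Continuous (hom p) := continuous_lift (continuous_Hm hpc)
  have hval : Continuous fun a : FT X => (hom p a : Matrix (Fin 2) (Fin 2) ℝ) 1 0 := by
    have h1 : Continuous fun a : FT X => (hom p a : Matrix (Fin 2) (Fin 2) ℝ) :=
      Units.continuous_val.comp hcont
    exact h1.matrix_elem 1 0
  refine ⟨(fun a : FT X => (hom p a : Matrix (Fin 2) (Fin 2) ℝ) 1 0) ⁻¹'
    {(hom p w : Matrix (Fin 2) (Fin 2) ℝ) 1 0}ᶜ, ?_, fun h => h rfl⟩
  refine (isOpen_compl_singleton.preimage hval).mem_nhds ?_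
  rcases hL : wd w with _ | ⟨⟨x, b⟩, L⟩
  · exact absurd (wd_eq_nil.1 hL) hw
  · have h1 := hom_cone p x b L (by rw [← hL]; exact hp) (by rw [← hL]; exact wd_reduced w)
    rw [← hL, mkL_wd] at h1
    intro h2
    have h3 : (hom p w : Matrix (Fin 2) (Fin 2) ℝ) 1 0 = 0 := by
      have h4 : (hom p (1 : FT X) : Matrix (Fin 2) (Fin 2) ℝ) 1 0 =
        (hom p w : Matrix (Fin 2) (Fin 2) ℝ) 1 0 := h2
      rw [← h4, map_one]
      simp
    have h4 := h1.1
    rw [h3] at h4
    have h5 := sq_nonneg ((hom p w : Matrix (Fin 2) (Fin 2) ℝ) 0 0 - p x * 0)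
    linarith

end Pool.Agent.V11281.F4
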