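import Pool.Agent.V11281.F4.Haus

/-!
# Yamada's conjecture: `F₄(X)` is Fréchet–Urysohn for metrizable `X` with compact derived set
-/

set_option autoImplicit false

open Set Topology Filter

namespace Pool.Agent.V11281.F4

universe u

namespace Yam

section coords

variable {X : Type u} [TopologicalSpace X]

/-- letters, inverse letters and the identity -/
def E3 (p : X × Fin 3) : FT X := if p.2 = 0 then 1 else if p.2 = 1 then FT.of p.1 else (FT.of p.1)⁻¹

lemma continuous_E3 : Continuous (E3 : X × Fin 3 → FT X) := by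
  rw [continuous_prod_of_discrete_right]
  intro b
  fin_cases b
  · simp only [E3]
    simp only [Fin.zero_eta, ↓reduceIte]
    exact continuous_const
  · simp only [E3]
    exact continuous_of
  · simp only [E3]
    exact continuous_of.inv

/-- the coordinates of a word -/
def gt (x0 : X) (L : List (X × Bool)) (i : ℕ) : X × Fin 3 :=
  match L[i]? with
  | none => (x0, 0)
  | some p => (p.1, cond p.2 1 2)

lemma E3_gt_some {x0 : X} {L : List (X × Bool)} {i : ℕ} {p : X × Bool} (h : L[i]? = some p) :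
    E3 (gt x0 L i) = el p := by
  unfold gt
  rw [h]
  rcases p with ⟨x, b⟩
  cases b <;> simp [E3, el]

lemma E3_gt_none {x0 : X} {L : List (X × Bool)} {i : ℕ} (h : L[i]? = none) :
    E3 (gt x0 L i) = 1 := by
  unfold gt
  rw [h]
  simp [E3]

/-- the product of four letters -/
def P4 (q : Fin 4 → X × Fin 3) : FT X := E3 (q 0) * (E3 (q 1) * (E3 (q 2) * E3 (q 3)))

lemma continuous_P4 : Continuous (P4 : (Fin 4 → X × Fin 3) → FT X) := by
  unfold P4
  have h : ∀ i : Fin 4, Continuous fun q : Fin 4 → X × Fin 3 => E3 (q i) := fun i =>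
    continuous_E3.comp (continuous_apply i)
  exact (h 0).mul ((h 1).mul ((h 2).mul (h 3)))

lemma P4_gt (x0 : X) (L : List (X × Bool)) (hL : L.length ≤ 4) :
    P4 (fun i => gt x0 L i) = mkL L := by
  rcases L with _ | ⟨a, L⟩
  · simp [P4, gt, E3, mkL_nil]
  rcases L with _ | ⟨b, L⟩
  · rw [mkL_cons, mkL_nil]
    rcases a with ⟨a, α⟩
    cases α <;> simp [P4, gt, E3, el]
  rcases L with _ | ⟨c, L⟩
  · rw [mkL_cons, mkL_cons, mkL_nil]
    rcases a with ⟨a, α⟩
    rcases b with ⟨b, β⟩
    cases α <;> cases β <;> simp [P4, gt, E3, el]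
  rcases L with _ | ⟨d, L⟩
  · rw [mkL_cons, mkL_cons, mkL_cons, mkL_nil]
    rcases a with ⟨a, α⟩
    rcases b with ⟨b, β⟩
    rcases c with ⟨c, γ⟩
    cases α <;> cases β <;> cases γ <;> simp [P4, gt, E3, el]
  have hL' : L = [] := by
    simp only [List.length_cons] at hL
    exact List.eq_nil_of_length_eq_zero (by omega)
  subst hL'
  rw [mkL_cons, mkL_cons, mkL_cons, mkL_cons, mkL_nil, mul_one]
  unfold P4
  have h0 : E3 (gt x0 [a, b, c, d] (0 : Fin 4)) = el a := E3_gt_some rfl
  have h1 : E3 (gt x0 [a, b, c, d] (1 : Fin 4)) = el b := E3_gt_some rfl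
  have h2 : E3 (gt x0 [a, b, c, d] (2 : Fin 4)) = el c := E3_gt_some rfl
  have h3 : E3 (gt x0 [a, b, c, d] (3 : Fin 4)) = el d := E3_gt_some rfl
  rw [h0, h1, h2, h3]

/-- if all letters converge along an ultrafilter, there is a convergent sequence -/
lemma tame [FirstCountableTopology X] [T2Space (FT X)] {A : Set (FT X)} (hA : A ⊆ Fn X 4)
    (U : Ultrafilter (FT X)) (hU : A ∈ U) {z : FT X} (hz : (U : Filter (FT X)) ≤ 𝓝 z) (x0 : X)
    (q : Fin 4 → X × Fin 3)
    (hq : ∀ i : Fin 4, Tendsto (fun w => gt x0 (wd w) i) U (𝓝 (q i))) :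
    ∃ s : ℕ → FT X, (∀ n, s n ∈ A) ∧ Tendsto s atTop (𝓝 z) := by
  have hT : Tendsto (fun w (i : Fin 4) => gt x0 (wd w) i) U (𝓝 q) := tendsto_pi_nhds.2 hq
  have hP : ∀ w ∈ A, P4 (fun i : Fin 4 => gt x0 (wd w) i) = w := by
    intro w hw
    rw [P4_gt x0 (wd w) (hA hw), mkL_wd]
  have hzq : z = P4 q := by
    have h1 : Tendsto (fun w => P4 (fun i : Fin 4 => gt x0 (wd w) i)) U (𝓝 (P4 q)) :=
      (continuous_P4.tendsto q).comp hT
    have h2 : Tendsto (fun w : FT X => w) U (𝓝 z) := hz
    have h3 : Tendsto (fun w => P4 (fun i : Fin 4 => gt x0 (wd w) i)) U (𝓝 z) := by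
      refine h2.congr' ?_
      filter_upwards [hU] with w hw
      exact (hP w hw).symm
    exact tendsto_nhds_unique h3 h1
  have hcl : q ∈ closure ((fun w (i : Fin 4) => gt x0 (wd w) i) '' A) := by
    refine mem_closure_of_tendsto hT ?_
    filter_upwards [hU] with w hw
    exact ⟨w, hw, rfl⟩
  obtain ⟨t, ht, htq⟩ := mem_closure_iff_seq_limit.1 hcl
  choose s hs hst using ht
  refine ⟨s, hs, ?_⟩
  rw [hzq]
  have h1 : Tendsto (fun n => P4 (t n)) atTop (𝓝 (P4 q)) := (continuous_P4.tendsto q).comp htq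
  refine h1.congr fun n => ?_
  rw [← hst n]
  exact hP _ (hs n)

end coords

section nbhds

variable {X : Type u} [MetricSpace X]

/-- the set of non-isolated points -/
def Kx (X : Type u) [TopologicalSpace X] : Set X := {x : X | ¬ IsOpen ({x} : Set X)}

/-- the neighbourhoods of the set of non-isolated points -/
def Um (X : Type u) [MetricSpace X] (m : ℕ) : Set X := Metric.thickening (1 / ((m : ℝ) + 1)) (Kx X)

lemma Um_open (m : ℕ) : IsOpen (Um X m) := Metric.isOpen_thickening

lemma Kx_subset (m : ℕ) : Kx X ⊆ Um X m := Metric.self_subset_thickening (by positivity) _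

lemma Um_anti {m n : ℕ} (h : m ≤ n) : Um X n ⊆ Um X m := by
  apply Metric.thickening_mono
  apply one_div_le_one_div_of_le (by positivity)
  have : (m : ℝ) ≤ n := by exact_mod_cast h
  linarith

lemma isolated {x : X} (h : x ∉ Kx X) : IsOpen ({x} : Set X) := not_not.1 h

lemma continuousAt_isolated {x : X} (h : x ∉ Kx X) {Y : Type*} [TopologicalSpace Y] (f : X → Y) :
    ContinuousAt f x := by
  have h1 : 𝓝 x = pure x := (isOpen_singleton_iff_nhds_eq_pure x).1 (isolated h)
  unfold ContinuousAt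
  rw [h1]
  exact tendsto_pure_nhds f x

/-- functions which agree with a continuous function near the non-isolated points -/
lemma continuous_ite {Y : Type*} [TopologicalSpace Y] {f g : X → Y} (m : ℕ)
    (hf : ∀ x ∈ Kx X, ContinuousAt f x) (h : ∀ x ∈ Um X m, g x = f x) : Continuous g := by
  rw [continuous_iff_continuousAt]
  intro x
  by_cases hx : x ∈ Kx X
  · refine (hf x hx).congr ?_
    filter_upwards [(Um_open m).mem_nhds (Kx_subset m hx)] with y hy
    exact (h y hy).symm
  · exact continuousAt_isolated hx g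

lemma exists_limit (hK : IsCompact (Kx X)) (W : Ultrafilter X) (h : ∀ m, Um X m ∈ W) :
    ∃ c ∈ Kx X, (W : Filter X) ≤ 𝓝 c := by
  by_contra hcon
  push Not at hcon
  have h1 : ∀ c ∈ Kx X, ∃ V : Set X, IsOpen V ∧ c ∈ V ∧ V ∉ W := by
    intro c hc
    have h2 := hcon c hc
    rw [Filter.not_le] at h2
    obtain ⟨V, hV, hVW⟩ := h2
    obtain ⟨V', hV', hV'o, hcV'⟩ := mem_nhds_iff.1 hV
    exact ⟨V', hV'o, hcV', fun h3 => hVW (Filter.mem_of_superset h3 hV')⟩
  choose! V hVo hcV hVW using h1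
  obtain ⟨t, ht, htK⟩ := hK.elim_nhds_subcover V fun c hc => (hVo c hc).mem_nhds (hcV c hc)
  have h2 : IsOpen (⋃ c ∈ t, V c) := isOpen_biUnion fun c hc => hVo c (ht c hc)
  obtain ⟨δ, hδ, hδt⟩ := hK.exists_thickening_subset_open h2 htK
  obtain ⟨m, hm⟩ := exists_nat_one_div_lt hδ
  have h3 : (⋃ c ∈ t, V c) ∈ W :=
    Filter.mem_of_superset (h m) ((Metric.thickening_mono hm.le _).trans hδt)
  rw [← Ultrafilter.mem_coe] at h3
  have h4 := (Ultrafilter.finite_biUnion_mem_iff t.finite_toSet).1 h3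
  obtain ⟨c, hc, hcW⟩ := h4
  exact hVW c (ht c hc) hcW

lemma exists_limit_seq (hK : IsCompact (Kx X)) {x : ℕ → X} (h : ∀ n, x n ∈ Um X n) :
    ∃ c ∈ Kx X, ∃ φ : ℕ → ℕ, StrictMono φ ∧ Tendsto (x ∘ φ) atTop (𝓝 c) := by
  have h1 : ∀ n, ∃ c ∈ Kx X, dist (x n) c < 1 / ((n : ℝ) + 1) := fun n =>
    Metric.mem_thickening_iff.1 (h n)
  choose c hc hd using h1
  obtain ⟨a, ha, φ, hφ, hφa⟩ := hK.tendsto_subseq hc
  refine ⟨a, ha, φ, hφ, ?_⟩
  rw [tendsto_iff_dist_tendsto_zero] at hφa ⊢
  have h2 : Tendsto (fun n => 1 / (((φ n : ℕ) : ℝ) + 1)) atTop (𝓝 0) :=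
    tendsto_one_div_add_atTop_nhds_zero_nat.comp hφ.tendsto_atTop
  have h3 := h2.add hφa
  rw [add_zero] at h3
  refine squeeze_zero (fun _ => dist_nonneg) (fun n => ?_) h3
  have h4 := dist_triangle (x (φ n)) (c (φ n)) a
  have h5 := hd (φ n)
  simp only [Function.comp]
  linarith

end nbhds

section embedding

/-- a discrete copy of two copies of the space -/
def Dis (X : Type u) : Type u := X ⊕ X

instance (X : Type u) : TopologicalSpace (Dis X) := ⊥

instance (X : Type u) : DiscreteTopology (Dis X) := ⟨rfl⟩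

/-- first copy -/
def dl {X : Type u} (y : X) : Dis X := Sum.inl y

/-- second copy -/
def dr {X : Type u} (y : X) : Dis X := Sum.inr y

/-- the ring of bounded functions -/
abbrev R (X : Type u) : Type u := BoundedContinuousFunction (Dis X) ℝ

variable {X : Type u} [MetricSpace X]

open Classical in
/-- the embedding of the space into a normed ring -/
noncomputable def jf (x : X) : Dis X → ℝ :=
  Sum.elim (fun y => min (dist x y) 1) fun y => if y = x then min (Metric.infDist x (Kx X)) 1 else 0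

lemma jf_bound (x : X) (t : Dis X) : ‖jf x t‖ ≤ 1 := by
  classical
  rcases t with y | y
  · change ‖min (dist x y) 1‖ ≤ 1
    rw [Real.norm_of_nonneg (le_min dist_nonneg zero_le_one)]
    exact min_le_right _ _
  · change ‖if y = x then min (Metric.infDist x (Kx X)) 1 else 0‖ ≤ 1
    split_ifs
    · rw [Real.norm_of_nonneg (le_min Metric.infDist_nonneg zero_le_one)]
      exact min_le_right _ _
    · simp

/-- the embedding of the space into a normed ring -/
noncomputable def j (x : X) : R X :=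
  BoundedContinuousFunction.ofNormedAddCommGroupDiscrete (jf x) 1 (jf_bound x)

lemma j_apply_inl (x y : X) : j x (dl y) = min (dist x y) 1 := rfl

open Classical in
lemma j_apply_inr (x y : X) : j x (dr y) =
    if y = x then min (Metric.infDist x (Kx X)) 1 else 0 := by
  change jf x (Sum.inr y) = _
  unfold jf
  rw [Sum.elim_inr]

lemma le_dist_jt (x y : X) (t : Dis X) : |j x t - j y t| ≤ dist (j x) (j y) := by
  rw [← Real.dist_eq]
  exact BoundedContinuousFunction.dist_coe_le_dist (f := j x) (g := j y) t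

lemma dist_j_le (x : X) {c : X} (hc : c ∈ Kx X) : dist (j x) (j c) ≤ dist x c := by
  classical
  rw [BoundedContinuousFunction.dist_le dist_nonneg]
  rintro (y | y)
  · change dist (j x (dl y)) (j c (dl y)) ≤ _
    rw [j_apply_inl, j_apply_inl, Real.dist_eq]
    have h1 : |min (dist x y) 1 - min (dist c y) 1| ≤ max |dist x y - dist c y| |(1 : ℝ) - 1| :=
      abs_min_sub_min_le_max _ _ _ _
    refine h1.trans ?_
    rw [sub_self, abs_zero, max_eq_left (abs_nonneg _)]
    exact abs_dist_sub_le x c y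
  · change dist (j x (dr y)) (j c (dr y)) ≤ _
    rw [j_apply_inr, j_apply_inr, Real.dist_eq]
    have h1 : Metric.infDist c (Kx X) = 0 := Metric.infDist_zero_of_mem hc
    rw [h1, min_eq_left zero_le_one, ite_self, sub_zero]
    split_ifs
    · rw [abs_of_nonneg (le_min Metric.infDist_nonneg zero_le_one)]
      exact (min_le_left _ _).trans (Metric.infDist_le_dist_of_mem hc)
    · rw [abs_zero]; exact dist_nonneg

lemma continuousAt_j {c : X} (hc : c ∈ Kx X) : ContinuousAt (j : X → R X) c := by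
  unfold ContinuousAt
  rw [tendsto_iff_dist_tendsto_zero]
  refine squeeze_zero (fun _ => dist_nonneg) (fun x => dist_j_le x hc) ?_
  have : Tendsto (fun x => dist x c) (𝓝 c) (𝓝 (dist c c)) :=
    (continuous_id.dist continuous_const).tendsto c
  rwa [dist_self] at this

/-- points which are not close have distant images -/
lemma le_dist_j {x y : X} (hxy : x ≠ y) (n : ℕ) (hne : (Kx X).Nonempty)
    (h : x ∉ Um X n ∨ y ∉ Um X n ∨ 1 / ((n : ℝ) + 1) ≤ dist x y) :
    1 / ((n : ℝ) + 1) ≤ ‖j x - j y‖ := by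
  classical
  rw [← dist_eq_norm]
  have h1 : 1 / ((n : ℝ) + 1) ≤ 1 := by
    rw [div_le_one (by positivity)]
    have : (0 : ℝ) ≤ n := Nat.cast_nonneg n
    linarith
  rcases h with h | h | h
  · refine le_trans ?_ (le_dist_jt x y (dr x))
    rw [j_apply_inr, j_apply_inr, if_pos rfl, if_neg hxy, sub_zero,
      abs_of_nonneg (le_min Metric.infDist_nonneg zero_le_one)]
    refine le_min ?_ h1
    rw [Um, Metric.mem_thickening_iff_infDist_lt hne] at h
    exact not_lt.1 h
  · refine le_trans ?_ (le_dist_jt x y (dr y))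
    rw [j_apply_inr, j_apply_inr, if_pos rfl, if_neg (Ne.symm hxy), zero_sub, abs_neg,
      abs_of_nonneg (le_min Metric.infDist_nonneg zero_le_one)]
    refine le_min ?_ h1
    rw [Um, Metric.mem_thickening_iff_infDist_lt hne] at h
    exact not_lt.1 h
  · refine le_trans ?_ (le_dist_jt x y (dl y))
    rw [j_apply_inl, j_apply_inl, dist_self, min_eq_left zero_le_one, sub_zero,
      abs_of_nonneg (le_min dist_nonneg zero_le_one)]
    exact le_min h h1

end embedding

section affine

variable (X : Type u)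

/-- the affine group over the ring -/
abbrev MR : Type u := (Matrix (Fin 2) (Fin 2) (R X))ˣ

variable {X}

/-- translations -/
noncomputable def Tr (t : R X) : MR X where
  val := !![1, t; 0, 1]
  inv := !![1, -t; 0, 1]
  val_inv := by
    ext i j : 2; fin_cases i <;> fin_cases j <;> simp [Matrix.mul_apply, Fin.sum_univ_two]
  inv_val := by
    ext i j : 2; fin_cases i <;> fin_cases j <;> simp [Matrix.mul_apply, Fin.sum_univ_two]

/-- scalings -/
noncomputable def Sc (s : ℝ) (hs : s ≠ 0) : MR X where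
  val := !![algebraMap ℝ (R X) s, 0; 0, 1]
  inv := !![algebraMap ℝ (R X) s⁻¹, 0; 0, 1]
  val_inv := by
    have h : algebraMap ℝ (R X) s * algebraMap ℝ (R X) s⁻¹ = 1 := by
      rw [← map_mul, mul_inv_cancel₀ hs, map_one]
    ext i j : 2; fin_cases i <;> fin_cases j <;>
      simp [-map_inv₀, Matrix.mul_apply, Fin.sum_univ_two, h]
  inv_val := by
    have h : algebraMap ℝ (R X) s⁻¹ * algebraMap ℝ (R X) s = 1 := by
      rw [← map_mul, inv_mul_cancel₀ hs, map_one]
    ext i j : 2; fin_cases i <;> fin_cases j <;>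
      simp [-map_inv₀, Matrix.mul_apply, Fin.sum_univ_two, h]

lemma Tr_mul (s t : R X) : Tr s * Tr t = Tr (s + t) := by
  apply Units.ext
  ext i j : 2; fin_cases i <;> fin_cases j <;>
    simp [Tr, Matrix.mul_apply, Fin.sum_univ_two, add_comm]

lemma Tr_inv (t : R X) : (Tr t)⁻¹ = Tr (-t) := by
  apply Units.ext
  ext i j : 2; fin_cases i <;> fin_cases j <;> simp [Tr]

lemma Sc_conj (s : ℝ) (t : R X) (hs : s ≠ 0) : Sc s hs * Tr t * (Sc s hs)⁻¹ = Tr (s • t) := by
  rw [mul_inv_eq_iff_eq_mul]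
  apply Units.ext
  ext i j : 2; fin_cases i <;> fin_cases j <;>
    simp [Tr, Sc, Matrix.mul_apply, Fin.sum_univ_two, Algebra.smul_def]

/-- the corner entry -/
noncomputable def en (a : MR X) : R X := (a : Matrix (Fin 2) (Fin 2) (R X)) 0 1

lemma en_Tr (t : R X) : en (Tr t) = t := by simp [en, Tr]

lemma continuous_en : Continuous (en : MR X → R X) := by
  have h : Continuous fun a : MR X => (a : Matrix (Fin 2) (Fin 2) (R X)) := Units.continuous_val
  exact h.matrix_elem 0 1

lemma continuous_Tr : Continuous (Tr : R X → MR X) := by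
  rw [Units.continuous_iff]
  constructor
  · refine continuous_matrix fun i j => ?_
    fin_cases i <;> fin_cases j <;> simp [Tr] <;> fun_prop
  · refine continuous_matrix fun i j => ?_
    fin_cases i <;> fin_cases j <;> simp [Tr] <;> fun_prop

end affine

section main

variable {X : Type u} [MetricSpace X]

open Classical in
/-- the collapsing maps -/
noncomputable def cm (m : ℕ) (x : X) : Option X := if x ∈ Um X m then none else some x

lemma cm_mem {m : ℕ} {x : X} (h : x ∈ Um X m) : cm m x = none := if_pos h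

lemma cm_not_mem {m : ℕ} {x : X} (h : x ∉ Um X m) : cm m x = some x := if_neg h

lemma cm_loc (m : ℕ) {G : Type*} (h : Option X → G) : IsLocallyConstant fun x : X => h (cm m x) := by
  rw [IsLocallyConstant.iff_eventually_eq]
  intro x
  by_cases hx : x ∈ Kx X
  · filter_upwards [(Um_open m).mem_nhds (Kx_subset m hx)] with y hy
    rw [cm_mem hy, cm_mem (Kx_subset m hx)]
  · rw [(isOpen_singleton_iff_nhds_eq_pure x).1 (isolated hx)]
    exact rfl

open Classical in
/-- endomorphisms moving isolated letters -/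
noncomputable def sig (m : ℕ) (S : Set X) (g : FT X) : FT X →* FT X :=
  FT.lift fun x => if x ∈ Um X m ∪ S then FT.of x else g

lemma continuous_sig (m : ℕ) (S : Set X) (g : FT X) : Continuous (sig m S g) := by
  refine continuous_lift (continuous_ite m (f := FT.of) (fun x _ => continuous_of.continuousAt) ?_)
  intro x hx
  exact if_pos (Or.inl hx)

lemma sig_el_mem {m : ℕ} {S : Set X} (g : FT X) {x : X} (h : x ∈ Um X m ∪ S) (b : Bool) :
    sig m S g (el (x, b)) = el (x, b) := by
  have h1 : sig m S g (FT.of x) = FT.of x := (lift_of _ _).trans (if_pos h)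
  cases b
  · change sig m S g (FT.of x)⁻¹ = (FT.of x)⁻¹
    rw [map_inv, h1]
  · exact h1

lemma sig_el_not_mem {m : ℕ} {S : Set X} (g : FT X) {x : X} (h : x ∉ Um X m ∪ S) (b : Bool) :
    sig m S g (el (x, b)) = cond b g g⁻¹ := by
  have h1 : sig m S g (FT.of x) = g := (lift_of _ _).trans (if_neg h)
  cases b
  · change sig m S g (FT.of x)⁻¹ = g⁻¹
    rw [map_inv, h1]
  · exact h1

lemma sig_eq_self {m : ℕ} {S : Set X} (g : FT X) {z : FT X} (h : ∀ p ∈ wd z, p.1 ∈ Um X m ∪ S) :
    sig m S g z = z := by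
  have h1 : ∀ L : List (X × Bool), (∀ p ∈ L, p.1 ∈ Um X m ∪ S) → sig m S g (mkL L) = mkL L := by
    intro L
    induction L with
    | nil => intro _; exact map_one _
    | cons p L ih =>
      intro hp
      rw [mkL_cons, map_mul, ih fun q hq => hp q (List.mem_cons_of_mem _ hq),
        sig_el_mem g (hp p (by simp)) p.2]
  rw [← mkL_wd z]
  exact h1 _ h

open Classical in
/-- homomorphisms to the affine group -/
noncomputable def rho (m : ℕ) (s : X → ℝ) (hs : ∀ x, s x ≠ 0) : FT X →* MR X :=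
  FT.lift fun x => if x ∈ Um X m then Tr (j x) else Sc (s x) (hs x)

lemma continuous_rho (m : ℕ) (s : X → ℝ) (hs : ∀ x, s x ≠ 0) : Continuous (rho m s hs) := by
  refine continuous_lift (continuous_ite m (f := fun x => Tr (j x)) ?_ ?_)
  · intro x hx
    exact continuous_Tr.continuousAt.comp (continuousAt_j hx)
  · intro x hx
    exact if_pos hx

lemma el_not (x : X) (b : Bool) : el (x, !b) = (el (x, b))⁻¹ := by
  cases b <;> simp [el]

lemma rho_of_mem {m : ℕ} {s : X → ℝ} {hs : ∀ x, s x ≠ 0} {x : X} (h : x ∈ Um X m) :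
    rho m s hs (FT.of x) = Tr (j x) := (lift_of _ _).trans (if_pos h)

lemma rho_of_not_mem {m : ℕ} {s : X → ℝ} {hs : ∀ x, s x ≠ 0} {x : X} (h : x ∉ Um X m) :
    rho m s hs (FT.of x) = Sc (s x) (hs x) := (lift_of _ _).trans (if_neg h)

lemma rho_inner {m : ℕ} (s : X → ℝ) (hs : ∀ x, s x ≠ 0) {x y : X} (hx : x ∈ Um X m)
    (hy : y ∈ Um X m) (ε : Bool) :
    ∃ t : R X, ‖t‖ = ‖j x - j y‖ ∧ rho m s hs (el (x, ε) * el (y, !ε)) = Tr t := by
  cases ε
  · refine ⟨-j x + j y, ?_, ?_⟩
    · rw [← norm_neg]; congr 1; abel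
    · simp only [el, Bool.not_false, cond_true, cond_false, map_mul, map_inv]
      rw [rho_of_mem hx, rho_of_mem hy, Tr_inv, Tr_mul]
  · refine ⟨j x + -j y, ?_, ?_⟩
    · rw [← sub_eq_add_neg]
    · simp only [el, Bool.not_true, cond_true, cond_false, map_mul, map_inv]
      rw [rho_of_mem hx, rho_of_mem hy, Tr_inv, Tr_mul]

/-- conjugates of small elements -/
noncomputable def zz (a : X) (δ : Bool) (x : X) (ε : Bool) (y : X) : FT X :=
  el (a, δ) * ((el (x, ε) * el (y, !ε)) * (el (a, δ))⁻¹)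

lemma zz_eq (a : X) (δ : Bool) (x : X) (ε : Bool) (y : X) :
    mkL [(a, δ), (x, ε), (y, !ε), (a, !δ)] = zz a δ x ε y := by
  rw [mkL_cons, mkL_cons, mkL_cons, mkL_cons, mkL_nil, el_not a δ, mul_one]
  unfold zz
  simp only [mul_assoc]

lemma zz_self (a : X) (δ : Bool) (x : X) (ε : Bool) : zz a δ x ε x = 1 := by
  unfold zz
  rw [el_not]
  group

lemma norm_true {m : ℕ} (s : X → ℝ) (hs : ∀ x, s x ≠ 0) {a x y : X} (ha : a ∉ Um X m)
    (hx : x ∈ Um X m) (hy : y ∈ Um X m) (ε : Bool) :
    ‖en (rho m s hs (zz a true x ε y))‖ = |s a| * ‖j x - j y‖ := by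
  obtain ⟨t, ht, h⟩ := rho_inner s hs hx hy ε
  unfold zz
  rw [map_mul, map_mul, h, map_inv]
  simp only [el, cond_true]
  rw [rho_of_not_mem ha, ← mul_assoc, Sc_conj, en_Tr, norm_smul, ht, Real.norm_eq_abs]

lemma norm_false {m : ℕ} (s : X → ℝ) (hs : ∀ x, s x ≠ 0) {a x y : X} (ha : a ∉ Um X m)
    (hx : x ∈ Um X m) (hy : y ∈ Um X m) (ε : Bool) :
    ‖en (rho m s hs (zz a false x ε y))‖ = |s a|⁻¹ * ‖j x - j y‖ := by
  obtain ⟨t, ht, h⟩ := rho_inner s hs hx hy ε
  unfold zz
  rw [map_mul, map_mul, h, map_inv]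
  simp only [el, cond_false]
  rw [map_inv, rho_of_not_mem ha, inv_inv]
  have h3 : (Sc (s a) (hs a))⁻¹ * (Tr t * Sc (s a) (hs a)) = Tr ((s a)⁻¹ • t) := by
    have h4 := Sc_conj (s a) ((s a)⁻¹ • t) (hs a)
    rw [smul_smul, mul_inv_cancel₀ (hs a), one_smul] at h4
    rw [← h4]
    group
  rw [h3, en_Tr, norm_smul, ht, Real.norm_eq_abs, abs_inv]

lemma en_one : en (1 : MR X) = 0 := by simp [en]

lemma wd_mkL {L : List (X × Bool)} (hL : FreeGroup.IsReduced L) : wd (mkL L) = L := by
  classical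
  change FreeGroup.toWord (FreeGroup.mk L) = L
  rw [FreeGroup.toWord_mk, hL.reduce_eq]

/-- **Yamada's conjecture** (sequential form). -/
theorem yamada (hK : IsCompact (Kx X)) {A : Set (FT X)} (hA : A ⊆ Fn X 4) {z : FT X}
    (hz : z ∈ closure A) : ∃ s : ℕ → FT X, (∀ n, s n ∈ A) ∧ Tendsto s atTop (𝓝 z) := by
  classical
  haveI : T2Space (FT X) := t2 X
  obtain ⟨U, hU, hUz⟩ := mem_closure_iff_ultrafilter.1 hz
  rcases isEmpty_or_nonempty X with hX | ⟨⟨x0⟩⟩
  · obtain ⟨a, ha⟩ : A.Nonempty := Ultrafilter.nonempty_of_mem hU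
    have h1 : ∀ b : FT X, b = 1 := by
      intro b
      rw [← wd_eq_nil]
      rcases wd b with _ | ⟨p, _⟩
      · rfl
      · exact hX.elim p.1
    refine ⟨fun _ => a, fun _ => ha, ?_⟩
    rw [h1 a, h1 z]
    exact tendsto_const_nhds
  by_cases htame : ∀ i : Fin 4, ∃ q, Tendsto (fun w => gt x0 (wd w) i) U (𝓝 q)
  · choose q hq using htame
    exact tame hA U hU hUz x0 q hq
  push Not at htame
  obtain ⟨i, hi⟩ := htame
  set W : Ultrafilter X := U.map (fun w => (gt x0 (wd w) i).1) with hW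
  have hnc : ∀ c, ¬ ((W : Filter X) ≤ 𝓝 c) := by
    intro c hc
    obtain ⟨k, hk⟩ := Ultrafilter.eq_pure_of_finite (U.map fun w => (gt x0 (wd w) i).2)
    apply hi (c, k)
    have h1 : Tendsto (fun w => (gt x0 (wd w) i).1) U (𝓝 c) := hc
    have h2 : Tendsto (fun w => (gt x0 (wd w) i).2) U (𝓝 k) := by
      have h3 : map (fun w => (gt x0 (wd w) i).2) (U : Filter (FT X)) = pure k := by
        rw [← Ultrafilter.coe_map, hk]
        rfl
      unfold Tendsto
      rw [h3]
      exact pure_le_nhds k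
    exact h1.prodMk_nhds h2
  obtain ⟨m0, hm0⟩ : ∃ m0, (Um X m0)ᶜ ∈ W := by
    by_contra hcon
    push Not at hcon
    obtain ⟨c, -, hc⟩ := exists_limit hK W fun m => by
      have := hcon m
      rwa [Ultrafilter.compl_mem_iff_notMem, not_not] at this
    exact hnc c hc
  have hfin : ∀ F : Set X, F.Finite → Fᶜ ∈ W := by
    intro F hF
    rw [Ultrafilter.compl_mem_iff_notMem]
    intro hFW
    obtain ⟨x, hx, hWx⟩ := Ultrafilter.eq_pure_of_finite_mem hF hFW
    apply hnc x
    rw [hWx]
    exact pure_le_nhds x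
  -- the structure of the words
  have hB : ∀ m ≥ m0, ∀ F : Set X, F.Finite → ∀ᶠ w in (U : Filter (FT X)), ∃ δ ε a x y,
      wd w = [(a, δ), (x, ε), (y, !ε), (a, !δ)] ∧ x ≠ y ∧ a ∉ Um X m ∧ a ∉ F ∧ x ∈ Um X m ∧
        y ∈ Um X m := by
    intro m hm F hF
    set E : Set X := {d | ∃ b, (some d, b) ∈ (fmap (cm m) z).toWord} with hE
    have hEfin : E.Finite := by
      refine Set.Finite.subset (Set.Finite.preimage (f := (some : X → Option X))
        (Option.some_injective X).injOn
        (((fmap (cm m) z).toWord.map Prod.fst).finite_toSet)) ?_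
      rintro d ⟨b, hb⟩
      simp only [mem_preimage, mem_ofPred_eq, List.mem_map]
      exact ⟨_, hb, rfl⟩
    have h1 : ∀ᶠ w in (U : Filter (FT X)), fmap (cm m) w = fmap (cm m) z :=
      hUz ((isOpen_preimage (cm_loc m FreeGroup.of) {fmap (cm m) z}).mem_nhds rfl)
    have h2 : ∀ᶠ w in (U : Filter (FT X)), (gt x0 (wd w) i).1 ∈ (Um X m0)ᶜ := hm0
    have h3 : ∀ᶠ w in (U : Filter (FT X)), (gt x0 (wd w) i).1 ∈ (E ∪ {x0} ∪ F)ᶜ :=
      hfin _ ((hEfin.union (finite_singleton x0)).union hF)
    filter_upwards [hU, h1, h2, h3] with w hwA hw1 hw2 hw3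
    obtain ⟨p, hp, hpx⟩ : ∃ p : X × Bool, (wd w)[(i : ℕ)]? = some p ∧
        (gt x0 (wd w) i).1 = p.1 := by
      rcases h : (wd w)[(i : ℕ)]? with _ | p
      · exfalso
        apply hw3
        left; right
        unfold gt
        rw [h]
        rfl
      · refine ⟨p, rfl, ?_⟩
        unfold gt
        rw [h]
    rw [hpx] at hw2 hw3
    have hw2' : p.1 ∉ Um X m := fun h => hw2 (Um_anti hm h)
    have hfm : fmap (cm m) w = FreeGroup.mk ((wd w).map fun p => (cm m p.1, p.2)) := by
      rw [← fmap_mkL, mkL_wd]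
    have hred : FreeGroup.reduce ((wd w).map fun p => (cm m p.1, p.2)) =
        (fmap (cm m) z).toWord := by
      rw [← FreeGroup.toWord_mk, ← hfm, hw1]
    rcases comb (cm m) (fun x => x ∉ Um X m) (fun x hx x' h => by
        rw [cm_not_mem hx] at h
        by_cases hx' : x' ∈ Um X m
        · rw [cm_mem hx'] at h; simp at h
        · rw [cm_not_mem hx'] at h
          exact Option.some_injective _ h)
      (wd w) (wd_reduced w) (hA hwA) with h | ⟨a, x, y, δ, ε, hL, ha, hxy⟩
    · exfalso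
      obtain ⟨b', hb'⟩ := h p.1 p.2 (List.mem_of_getElem? hp) hw2'
      rw [hred, cm_not_mem hw2'] at hb'
      apply hw3
      left; left
      exact ⟨b', hb'⟩
    · have hne : x ≠ y := by
        rintro rfl
        have h4 := wd_reduced w
        rw [hL] at h4
        simp only [FreeGroup.IsReduced, List.isChain_cons_cons, List.isChain_singleton] at h4
        have h5 := h4.2.1 trivial
        simp at h5
      have hxU : x ∈ Um X m := by
        by_contra hx
        rw [cm_not_mem hx] at hxy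
        by_cases hy : y ∈ Um X m
        · rw [cm_mem hy] at hxy; simp at hxy
        · rw [cm_not_mem hy] at hxy
          exact hne (Option.some_injective _ hxy)
      have hyU : y ∈ Um X m := by
        by_contra hy
        rw [cm_not_mem hy, cm_mem hxU] at hxy
        simp at hxy
      refine ⟨δ, ε, a, x, y, hL, hne, ha, ?_, hxU, hyU⟩
      have hpa : p.1 = a := by
        have h4 := List.mem_of_getElem? hp
        rw [hL] at h4
        simp only [List.mem_cons, List.not_mem_nil, or_false] at h4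
        rcases h4 with h4 | h4 | h4 | h4
        · rw [h4]
        · rw [h4] at hw2'; exact absurd hxU hw2'
        · rw [h4] at hw2'; exact absurd hyU hw2'
        · rw [h4]
      rw [← hpa]
      exact fun h4 => hw3 (Or.inr h4)
  -- limits of the inner letters
  have hlim : ∀ k : ℕ, k = 1 ∨ k = 2 → ∃ c ∈ Kx X,
      Tendsto (fun w => (gt x0 (wd w) k).1) U (𝓝 c) := by
    intro k hk
    obtain ⟨c, hc, hc'⟩ := exists_limit hK (U.map fun w => (gt x0 (wd w) k).1) fun m => by
      change ∀ᶠ w in (U : Filter (FT X)), (gt x0 (wd w) k).1 ∈ Um X m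
      filter_upwards [hB (max m m0) (le_max_right _ _) ∅ finite_empty] with w hw
      obtain ⟨δ, ε, a, x, y, hL, -, -, -, hx, hy⟩ := hw
      apply Um_anti (le_max_left m m0)
      rcases hk with rfl | rfl
      · rw [hL]; exact hx
      · rw [hL]; exact hy
    exact ⟨c, hc, hc'⟩
  obtain ⟨c, hcK, hc⟩ := hlim 1 (Or.inl rfl)
  obtain ⟨c', hcK', hc'⟩ := hlim 2 (Or.inr rfl)
  set S : Set X := {x | ∃ b, (x, b) ∈ wd z} with hS
  have hSfin : S.Finite := by
    refine Set.Finite.subset (((wd z).map Prod.fst).finite_toSet) ?_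
    rintro d ⟨b, hb⟩
    simp only [mem_ofPred_eq, List.mem_map]
    exact ⟨_, hb, rfl⟩
  obtain ⟨δ, ε, hδε⟩ : ∃ δ ε, ∀ᶠ w in (U : Filter (FT X)), ∃ a x y,
      wd w = [(a, δ), (x, ε), (y, !ε), (a, !δ)] ∧ x ≠ y ∧ a ∉ Um X m0 ∧ a ∉ S ∧ x ∈ Um X m0 ∧
        y ∈ Um X m0 := by
    have h1 := hB m0 le_rfl S hSfin
    simp only [Bool.exists_bool, Ultrafilter.eventually_or] at h1 ⊢
    exact h1
  have hzg : ∀ g : FT X, z = g * ((el (c, ε) * el (c', !ε)) * g⁻¹) := by
    intro g
    set g' : FT X := cond δ g g⁻¹ with hg'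
    have hg'' : cond δ g' g'⁻¹ = g := by
      cases δ <;> simp [hg']
    have h1 : Tendsto (fun w => sig m0 S g' w) U (𝓝 z) := by
      have h2 := ((continuous_sig m0 S g').tendsto z).mono_left hUz
      have h3 : sig m0 S g' z = z :=
        sig_eq_self g' fun p hp => Or.inr (show p.1 ∈ S from ⟨p.2, hp⟩)
      rwa [h3] at h2
    have h2 : Tendsto (fun w => g * ((el ((gt x0 (wd w) 1).1, ε) * el ((gt x0 (wd w) 2).1, !ε)) *
        g⁻¹)) U (𝓝 (g * ((el (c, ε) * el (c', !ε)) * g⁻¹))) := by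
      have h3 : Tendsto (fun w => el ((gt x0 (wd w) 1).1, ε)) U (𝓝 (el (c, ε))) :=
        ((continuous_el ε).tendsto c).comp hc
      have h4 : Tendsto (fun w => el ((gt x0 (wd w) 2).1, !ε)) U (𝓝 (el (c', !ε))) :=
        ((continuous_el (!ε)).tendsto c').comp hc'
      exact tendsto_const_nhds.mul ((h3.mul h4).mul tendsto_const_nhds)
    refine tendsto_nhds_unique h1 (h2.congr' ?_)
    filter_upwards [hδε] with w hw
    obtain ⟨a, x, y, hL, -, ha, haS, hx, hy⟩ := hw
    have hwz : w = zz a δ x ε y := by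
      rw [← zz_eq, ← hL, mkL_wd]
    have h5 : sig m0 S g' w = g * ((el (x, ε) * el (y, !ε)) * g⁻¹) := by
      rw [hwz]
      unfold zz
      rw [map_mul, map_mul, map_mul, map_inv, sig_el_mem g' (Or.inl hx), sig_el_mem g' (Or.inl hy),
        sig_el_not_mem g' (by
          rintro (h | h)
          · exact ha h
          · exact haS h), hg'']
    rw [h5, hL]
    rfl
  have hz1 : z = el (c, ε) * el (c', !ε) := by
    have := hzg 1
    rwa [one_mul, inv_one, mul_one] at this
  have hcc : c = c' := by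
    by_contra hne
    have h1 := hzg (el (c, ε))
    rw [← hz1] at h1
    have h2 : z * el (c, ε) = el (c, ε) * z := by
      conv_lhs => rw [h1]
      group
    rw [hz1, mul_assoc] at h2
    have h3 := mul_left_cancel h2
    have h4 : mkL [(c', !ε), (c, ε)] = mkL [(c, ε), (c', !ε)] := by
      rw [mkL_cons, mkL_cons, mkL_cons, mkL_cons, mkL_nil, mul_one, mul_one]
      exact h3
    have h5 := congrArg wd h4
    rw [wd_mkL, wd_mkL] at h5
    · simp only [List.cons.injEq, Prod.mk.injEq] at h5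
      exact hne h5.1.1.symm
    · simp [FreeGroup.IsReduced, hne]
    · simp [FreeGroup.IsReduced, Ne.symm hne]
  have hz2 : z = 1 := by
    rw [hz1, ← hcc, el_not, mul_inv_cancel]
  -- the conjugates
  have hbad : ∀ᶠ w in (U : Filter (FT X)), w ∈ A ∧ ∃ a x y, w = zz a δ x ε y ∧ x ≠ y ∧
      a ∉ Um X m0 ∧ x ∈ Um X m0 ∧ y ∈ Um X m0 := by
    filter_upwards [hU, hδε] with w hwA hw
    obtain ⟨a, x, y, hL, hne, ha, -, hx, hy⟩ := hw
    refine ⟨hwA, a, x, y, ?_, hne, ha, hx, hy⟩
    rw [← zz_eq, ← hL, mkL_wd]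
  by_cases hseq : ∃ a, ∀ n : ℕ, ∃ x y, zz a δ x ε y ∈ A ∧ x ∈ Um X n ∧ y ∈ Um X n ∧
      dist x y < 1 / ((n : ℝ) + 1)
  · obtain ⟨a, ha⟩ := hseq
    choose x y hxy hx hy hd using ha
    obtain ⟨b, -, φ, hφ, hb⟩ := exists_limit_seq hK hx
    have hb' : Tendsto (y ∘ φ) atTop (𝓝 b) := by
      rw [tendsto_iff_dist_tendsto_zero] at hb ⊢
      have h2 : Tendsto (fun n => 1 / (((φ n : ℕ) : ℝ) + 1)) atTop (𝓝 0) :=
        tendsto_one_div_add_atTop_nhds_zero_nat.comp hφ.tendsto_atTop
      have h3 := h2.add hb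
      rw [add_zero] at h3
      refine squeeze_zero (fun _ => dist_nonneg) (fun n => ?_) h3
      have h4 := dist_triangle_left (y (φ n)) b (x (φ n))
      have h5 := hd (φ n)
      simp only [Function.comp]
      linarith
    refine ⟨fun n => zz a δ (x (φ n)) ε (y (φ n)), fun n => hxy _, ?_⟩
    rw [hz2, ← zz_self a δ b ε]
    unfold zz
    have h3 : Tendsto (fun n => el (x (φ n), ε)) atTop (𝓝 (el (b, ε))) :=
      ((continuous_el ε).tendsto b).comp hb
    have h4 : Tendsto (fun n => el (y (φ n), !ε)) atTop (𝓝 (el (b, !ε))) :=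
      ((continuous_el (!ε)).tendsto b).comp hb'
    exact tendsto_const_nhds.mul ((h3.mul h4).mul tendsto_const_nhds)
  · exfalso
    push Not at hseq
    choose N hN using hseq
    have hs1 : ∀ a : X, ((N a : ℝ) + 1) ≠ 0 := fun a => by positivity
    have hs2 : ∀ a : X, ((N a : ℝ) + 1)⁻¹ ≠ 0 := fun a => by positivity
    have hO : ∀ (s : X → ℝ) (hs : ∀ x, s x ≠ 0),
        ∀ᶠ w in (U : Filter (FT X)), ‖en (rho m0 s hs w)‖ < 1 := by
      intro s hs
      have h1 : Continuous fun w => ‖en (rho m0 s hs w)‖ :=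
        (continuous_en.comp (continuous_rho m0 s hs)).norm
      have h2 : ‖en (rho m0 s hs z)‖ < 1 := by
        rw [hz2, map_one, en_one, norm_zero]
        exact one_pos
      exact hUz (h1.continuousAt.eventually_lt continuousAt_const h2)
    obtain ⟨w, ⟨hwA, a, x, y, hwz, hne, ha, hx, hy⟩, hw1, hw2⟩ :=
      (hbad.and ((hO _ hs1).and (hO _ hs2))).exists
    have hKne : (Kx X).Nonempty := by
      obtain ⟨b, hb, -⟩ := Metric.mem_thickening_iff.1 hx
      exact ⟨b, hb⟩
    have h1 : 1 / ((N a : ℝ) + 1) ≤ ‖j x - j y‖ := by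
      apply le_dist_j hne (N a) hKne
      by_contra hcon
      push Not at hcon
      have h2 := hN a x y (by rw [← hwz]; exact hwA) hcon.1 hcon.2.1
      linarith [hcon.2.2]
    have h2 : 1 ≤ ((N a : ℝ) + 1) * ‖j x - j y‖ := by
      have h3 : (0 : ℝ) < (N a : ℝ) + 1 := by positivity
      have h4 := mul_le_mul_of_nonneg_left h1 h3.le
      rwa [mul_one_div_cancel h3.ne'] at h4
    cases δ
    · rw [hwz, norm_false _ _ ha hx hy, abs_inv, inv_inv, abs_of_pos (by positivity)] at hw2
      linarith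
    · rw [hwz, norm_true _ _ ha hx hy, abs_of_pos (by positivity)] at hw1
      linarith

end main

end Yam

end Pool.Agent.V11281.F4
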