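import Mathlib

/-!
# Markov free topological groups

The free group on a topological space `X` carries the finest group topology for which the
canonical map `X → FreeGroup X` is continuous.
-/

set_option autoImplicit false

open Set Topology Filter

namespace Pool.Agent.V11281.F4

universe u v

/-- the free topological group over `X` -/
def FT (X : Type u) : Type u := FreeGroup X

instance (X : Type u) : Group (FT X) := inferInstanceAs (Group (FreeGroup X))

/-- the canonical map -/
def FT.of {X : Type u} (x : X) : FT X := (FreeGroup.of x : FreeGroup X)

variable {X : Type u} [TopologicalSpace X]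

/-- the Markov topology: the finest group topology making the canonical map continuous -/
instance : TopologicalSpace (FT X) :=
  (GroupTopology.coinduced (FT.of : X → FT X)).toTopologicalSpace

instance : IsTopologicalGroup (FT X) :=
  (GroupTopology.coinduced (FT.of : X → FT X)).toIsTopologicalGroup

lemma continuous_of : Continuous (FT.of : X → FT X) := GroupTopology.coinduced_continuous FT.of

/-- the extension of a map -/
def FT.lift {G : Type v} [Group G] (f : X → G) : FT X →* G :=
  (FreeGroup.lift f : FreeGroup X →* G)

lemma lift_of {G : Type v} [Group G] (f : X → G) (x : X) : FT.lift f (FT.of x) = f x :=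
  FreeGroup.lift_apply_of

/-- the universal property -/
theorem continuous_lift {G : Type v} [Group G] [TopologicalSpace G] [IsTopologicalGroup G]
    {f : X → G} (hf : Continuous f) : Continuous (FT.lift f) := by
  have hG : @IsTopologicalGroup (FT X) (TopologicalSpace.induced (FT.lift f) inferInstance) _ :=
    topologicalGroup_induced (FT.lift f)
  let b : GroupTopology (FT X) := ⟨TopologicalSpace.induced (FT.lift f) inferInstance, hG⟩
  have h1 : GroupTopology.coinduced (FT.of : X → FT X) ≤ b := by
    apply sInf_le
    change TopologicalSpace.coinduced _ _ ≤ TopologicalSpace.induced _ _
    rw [← continuous_iff_coinduced_le, continuous_induced_rng]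
    have : (FT.lift f : FT X → G) ∘ FT.of = f := funext fun x => lift_of f x
    rw [this]
    exact hf
  exact continuous_iff_le_induced.2 (GroupTopology.toTopologicalSpace_le.2 h1)

/-- homomorphisms to discrete groups -/
lemma isOpen_preimage {G : Type v} [Group G] {f : X → G} (hf : IsLocallyConstant f) (S : Set G) :
    IsOpen (FT.lift f ⁻¹' S) := by
  letI : TopologicalSpace G := ⊥
  haveI : DiscreteTopology G := ⟨rfl⟩
  exact (isOpen_discrete S).preimage (continuous_lift hf.continuous)

/-- the word of an element -/
noncomputable def FT.word (w : FT X) : List (X × Bool) :=
  (open Classical in FreeGroup.toWord (w : FreeGroup X))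

/-- the length of the reduced word -/
noncomputable def FT.len (w : FT X) : ℕ := (FT.word w).length

/-- the subspaces of words of length at most `n` -/
def Fn (X : Type u) (n : ℕ) : Set (FT X) :=
  {w | ((open Classical in FreeGroup.toWord (w : FreeGroup X)) : List (X × Bool)).length ≤ n}

end Pool.Agent.V11281.F4
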