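import Pool.Agent.V11281.F4.Words

/-!
# `F₄` of a convergent sequence plus a discrete space is a `k`-space
-/

set_option autoImplicit false

open Set Topology Filter

namespace Pool.Agent.V11281.F4

universe u v

/-- `k`-spaces: a set is closed if its trace on each compact subset `K` is closed in `K` -/
def IsKSpace (Z : Type u) [TopologicalSpace Z] : Prop :=
  ∀ A : Set Z, (∀ K : Set Z, IsCompact K → IsClosed (Subtype.val ⁻¹' A : Set K)) → IsClosed A

/-- `k_ℝ`-spaces -/
def IsKR (Z : Type u) [TopologicalSpace Z] : Prop :=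
  ∀ f : Z → ℝ, (∀ K : Set Z, IsCompact K → ContinuousOn f K) → Continuous f

lemma IsKSpace.isKR {Z : Type u} [TopologicalSpace Z] (h : IsKSpace Z) : IsKR Z := by
  intro f hf
  rw [continuous_iff_isClosed]
  intro B hB
  apply h
  intro K hK
  have h1 := continuousOn_iff_continuous_restrict.1 (hf K hK)
  exact hB.preimage h1

section maps

/-- truncation of the convergent sequence -/
noncomputable def g (m : ℕ) : OnePoint ℕ → ℕ := fun c => Option.elim c m (fun i => min i m)

lemma g_infty (m : ℕ) : g m OnePoint.infty = m := rfl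

lemma g_coe (m i : ℕ) : g m (i : OnePoint ℕ) = min i m := rfl

lemma continuous_g (m : ℕ) : Continuous (g m) := by
  rw [OnePoint.continuous_iff_from_nat]
  refine tendsto_const_nhds.congr' ?_
  filter_upwards [eventually_ge_atTop m] with i hi
  rw [g_coe, g_infty, min_eq_right hi]

/-- the coordinates of the convergent sequence -/
noncomputable def tau : OnePoint ℕ → ℝ := fun c => Option.elim c 0 (fun i => 1 / ((i : ℝ) + 1))

lemma tau_infty : tau OnePoint.infty = 0 := rfl

lemma tau_coe (i : ℕ) : tau (i : OnePoint ℕ) = 1 / ((i : ℝ) + 1) := rfl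

lemma continuous_tau : Continuous tau := by
  rw [OnePoint.continuous_iff_from_nat]
  exact tendsto_one_div_add_atTop_nhds_zero_nat

lemma tau_injective : Function.Injective tau := by
  intro a b h
  induction a using OnePoint.rec with
  | infty =>
    induction b using OnePoint.rec with
    | infty => rfl
    | coe j =>
      exfalso
      rw [tau_infty, tau_coe] at h
      have : (0 : ℝ) < 1 / ((j : ℝ) + 1) := by positivity
      linarith
  | coe i =>
    induction b using OnePoint.rec with
    | infty =>
      exfalso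
      rw [tau_infty, tau_coe] at h
      have : (0 : ℝ) < 1 / ((i : ℝ) + 1) := by positivity
      linarith
    | coe j =>
      rw [tau_coe, tau_coe] at h
      have h1 : (i : ℝ) + 1 = j + 1 := by
        have h2 : ((i : ℝ) + 1) ≠ 0 := by positivity
        have h3 : ((j : ℝ) + 1) ≠ 0 := by positivity
        field_simp at h
        linarith
      have h2 : i = j := by
        have : (i : ℝ) = j := by linarith
        exact_mod_cast this
      rw [h2]

end maps

section affine

/-- the group of invertible matrices -/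
abbrev M : Type := (Matrix (Fin 2) (Fin 2) ℝ)ˣ

/-- translations -/
noncomputable def Tr (t : ℝ) : M where
  val := !![1, t; 0, 1]
  inv := !![1, -t; 0, 1]
  val_inv := by
    ext i j; fin_cases i <;> fin_cases j <;> simp [Matrix.mul_apply, Fin.sum_univ_two]
  inv_val := by
    ext i j; fin_cases i <;> fin_cases j <;> simp [Matrix.mul_apply, Fin.sum_univ_two]

/-- scalings -/
noncomputable def Sc (s : ℝ) (hs : s ≠ 0) : M where
  val := !![s, 0; 0, 1]
  inv := !![s⁻¹, 0; 0, 1]
  val_inv := by
    ext i j; fin_cases i <;> fin_cases j <;> simp [Matrix.mul_apply, Fin.sum_univ_two, hs]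
  inv_val := by
    ext i j; fin_cases i <;> fin_cases j <;> simp [Matrix.mul_apply, Fin.sum_univ_two, hs]

lemma Tr_mul (s t : ℝ) : Tr s * Tr t = Tr (s + t) := by
  apply Units.ext
  ext i j; fin_cases i <;> fin_cases j <;> simp [Tr, Matrix.mul_apply, Fin.sum_univ_two, add_comm]

lemma Tr_inv (t : ℝ) : (Tr t)⁻¹ = Tr (-t) := by
  apply Units.ext
  ext i j; fin_cases i <;> fin_cases j <;> simp [Tr]

lemma Sc_conj (s t : ℝ) (hs : s ≠ 0) : Sc s hs * Tr t * (Sc s hs)⁻¹ = Tr (s * t) := by
  rw [mul_inv_eq_iff_eq_mul]
  apply Units.ext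
  ext i j; fin_cases i <;> fin_cases j <;>
    simp [Tr, Sc, Matrix.mul_apply, Fin.sum_univ_two]

/-- the corner entry -/
noncomputable def en (a : M) : ℝ := (a : Matrix (Fin 2) (Fin 2) ℝ) 0 1

lemma en_Tr (t : ℝ) : en (Tr t) = t := by simp [en, Tr]

lemma continuous_en : Continuous en := by
  have h : Continuous fun a : M => (a : Matrix (Fin 2) (Fin 2) ℝ) := Units.continuous_val
  exact h.matrix_elem 0 1

lemma continuous_Tr {Y : Type*} [TopologicalSpace Y] {f : Y → ℝ} (hf : Continuous f) :
    Continuous fun y => Tr (f y) := by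
  rw [Units.continuous_iff]
  constructor
  · refine continuous_matrix fun i j => ?_
    fin_cases i <;> fin_cases j <;> simp [Tr] <;> fun_prop
  · refine continuous_matrix fun i j => ?_
    fin_cases i <;> fin_cases j <;> simp [Tr] <;> fun_prop

end affine

section main

variable {D : Type u} [TopologicalSpace D] [DiscreteTopology D]

/-- the space: a convergent sequence and a discrete space -/
abbrev CD (D : Type u) : Type u := OnePoint ℕ ⊕ D

/-- the discrete quotients -/
noncomputable def fm (D : Type u) (m : ℕ) : CD D → ℕ ⊕ D := Sum.map (g m) id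

lemma fm_iso (m : ℕ) (x : CD D) (hx : ∃ d, x = Sum.inr d) (x' : CD D) (h : fm D m x' = fm D m x) :
    x' = x := by
  obtain ⟨d, rfl⟩ := hx
  rcases x' with c | d'
  · simp [fm] at h
  · simp [fm] at h
    rw [h]

lemma isLocallyConstant_fm (m : ℕ) {G : Type*} (h : ℕ ⊕ D → G) :
    IsLocallyConstant fun x : CD D => h (fm D m x) := by
  have h1 : Continuous (fm D m) := (continuous_g m).sumMap continuous_id
  exact ((IsLocallyConstant.iff_continuous _).2 h1).comp h

/-- nontrivial elements are nontrivial in some discrete quotient -/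
lemma exists_fmap_ne {w : FT (CD D)} (hw : w ≠ 1) : ∃ m, fmap (fm D m) w ≠ 1 := by
  classical
  obtain ⟨m, hm⟩ : ∃ m : ℕ, ∀ p ∈ wd w, ∀ i : ℕ, p.1 = Sum.inl (i : OnePoint ℕ) → i < m := by
    have : ∀ L : List (CD D × Bool), ∃ m : ℕ, ∀ p ∈ L, ∀ i : ℕ,
        p.1 = Sum.inl (i : OnePoint ℕ) → i < m := by
      intro L
      induction L with
      | nil => exact ⟨0, by simp⟩
      | cons q L ih =>
        obtain ⟨m, hm⟩ := ih
        obtain ⟨k, hk⟩ : ∃ k : ℕ, ∀ i : ℕ, q.1 = Sum.inl (i : OnePoint ℕ) → i < k := by
          by_cases h : ∃ i : ℕ, q.1 = Sum.inl (i : OnePoint ℕ)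
          · obtain ⟨i, hi⟩ := h
            refine ⟨i + 1, fun j hj => ?_⟩
            rw [hi, Sum.inl.injEq, OnePoint.coe_eq_coe] at hj
            omega
          · exact ⟨0, fun i hi => absurd ⟨i, hi⟩ h⟩
        refine ⟨max m k, fun p hp i hi => ?_⟩
        rcases List.mem_cons.1 hp with rfl | hp
        · exact lt_of_lt_of_le (hk i hi) (le_max_right _ _)
        · exact lt_of_lt_of_le (hm p hp i hi) (le_max_left _ _)
    exact this _
  refine ⟨m, fun h => hw ?_⟩
  have h1 : fmap (fm D m) w = FreeGroup.mk ((wd w).map fun p => (fm D m p.1, p.2)) := by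
    rw [← fmap_mkL, mkL_wd]
  have hinj : ∀ p ∈ wd w, ∀ q ∈ wd w, fm D m p.1 = fm D m q.1 → p.1 = q.1 := by
    rintro ⟨x, b⟩ hp ⟨y, c⟩ hq hxy
    have hx := hm _ hp
    have hy := hm _ hq
    simp only at hx hy hxy ⊢
    rcases x with x | d <;> rcases y with y | e
    · have hg : g m x = g m y := by simpa [fm] using hxy
      induction x using OnePoint.rec with
      | infty =>
        induction y using OnePoint.rec with
        | infty => rfl
        | coe j =>
          have := hy j rfl
          rw [g_infty, g_coe] at hg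
          omega
      | coe i =>
        have h2 := hx i rfl
        induction y using OnePoint.rec with
        | infty =>
          rw [g_infty, g_coe] at hg
          omega
        | coe j =>
          have h3 := hy j rfl
          rw [g_coe, g_coe] at hg
          have : i = j := by omega
          rw [this]
    · simp [fm] at hxy
    · simp [fm] at hxy
    · simpa [fm] using hxy
  have hred : FreeGroup.IsReduced ((wd w).map fun p => (fm D m p.1, p.2)) := by
    have h2 := wd_reduced w
    have h3 : ∀ L : List (CD D × Bool), (∀ p ∈ L, ∀ q ∈ L, fm D m p.1 = fm D m q.1 → p.1 = q.1) →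
        FreeGroup.IsReduced L → FreeGroup.IsReduced (L.map fun p => (fm D m p.1, p.2)) := by
      intro L
      induction L with
      | nil => intro _ _; simp [FreeGroup.IsReduced]
      | cons p L ih =>
        intro hp hL
        rcases L with _ | ⟨q, L⟩
        · simp [FreeGroup.IsReduced]
        · simp only [FreeGroup.IsReduced, List.map_cons, List.isChain_cons_cons] at hL ih ⊢
          refine ⟨fun h4 => hL.1 (hp p (by simp) q (by simp) h4), ?_⟩
          exact ih (fun a ha b hb => hp a (List.mem_cons_of_mem _ ha) b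
            (List.mem_cons_of_mem _ hb)) hL.2
    exact h3 _ hinj h2
  rw [h1] at h
  have h4 := congrArg FreeGroup.toWord h
  rw [FreeGroup.toWord_mk, hred.reduce_eq, FreeGroup.toWord_one, List.map_eq_nil_iff] at h4
  exact wd_eq_nil.1 h4

instance : T2Space (FT (CD D)) := by
  apply IsTopologicalGroup.t2Space_of_one_sep
  intro w hw
  obtain ⟨m, hm⟩ := exists_fmap_ne hw
  refine ⟨fmap (fm D m) ⁻¹' {1}, ?_, hm⟩
  exact (isOpen_preimage (isLocallyConstant_fm m _) {1}).mem_nhds (map_one _)

/-- elements of length at most four are products of letters -/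
lemma mem_Pn {w : FT (CD D)} (hw : w ∈ Fn (CD D) 4) {S : Set (CD D)} (h : ∀ p ∈ wd w, p.1 ∈ S) :
    w ∈ Pn S 4 := by
  rw [← mkL_wd w]
  exact mkL_mem_Pn h hw

/-- the exceptional words -/
def zz (d : D) (δ ε : Bool) (c c' : OnePoint ℕ) : FT (CD D) :=
  mkL [(Sum.inr d, δ), (Sum.inl c, ε), (Sum.inl c', !ε), (Sum.inr d, !δ)]

lemma zz_eq (d : D) (δ ε : Bool) (c c' : OnePoint ℕ) : zz d δ ε c c' =
    el (Sum.inr d, δ) * (el (Sum.inl c, ε) * (el (Sum.inl c', !ε) * (el (Sum.inr d, !δ) * 1))) := by
  unfold zz
  rw [mkL_cons, mkL_cons, mkL_cons, mkL_cons, mkL_nil]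

lemma el_not (x : CD D) (b : Bool) : el (x, !b) = (el (x, b))⁻¹ := by
  cases b <;> simp [el]

lemma continuous_zz (d : D) (δ ε : Bool) :
    Continuous fun p : OnePoint ℕ × OnePoint ℕ => zz d δ ε p.1 p.2 := by
  simp only [zz_eq]
  have h1 : Continuous fun p : OnePoint ℕ × OnePoint ℕ => el ((Sum.inl p.1 : CD D), ε) :=
    (continuous_el ε).comp (continuous_inl.comp continuous_fst)
  have h2 : Continuous fun p : OnePoint ℕ × OnePoint ℕ => el ((Sum.inl p.2 : CD D), !ε) :=
    (continuous_el (!ε)).comp (continuous_inl.comp continuous_snd)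
  exact continuous_const.mul (h1.mul (h2.mul continuous_const))

lemma zz_self (d : D) (δ ε : Bool) (c : OnePoint ℕ) : zz d δ ε c c = 1 := by
  rw [zz_eq, el_not, el_not]
  group

/-- the homomorphism to the affine group -/
noncomputable def rho (s : D → ℝ) (hs : ∀ d, s d ≠ 0) : FT (CD D) →* M :=
  FT.lift (Sum.elim (fun c => Tr (tau c)) fun d => Sc (s d) (hs d))

lemma continuous_rho (s : D → ℝ) (hs : ∀ d, s d ≠ 0) : Continuous (rho s hs) :=
  continuous_lift ((continuous_Tr continuous_tau).sumElim continuous_of_discreteTopology)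

lemma rho_inner (s : D → ℝ) (hs : ∀ d, s d ≠ 0) (ε : Bool) (c c' : OnePoint ℕ) :
    ∃ t, |t| = |tau c - tau c'| ∧
      rho s hs (el (Sum.inl c, ε) * el (Sum.inl c', !ε)) = Tr t := by
  cases ε
  · refine ⟨-tau c + tau c', ?_, ?_⟩
    · rw [← abs_neg]; congr 1; ring
    · simp only [el, Bool.not_false, cond_true, cond_false, map_mul, map_inv]
      unfold rho
      rw [lift_of, lift_of, Sum.elim_inl, Sum.elim_inl, Tr_inv, Tr_mul]
  · refine ⟨tau c + -tau c', ?_, ?_⟩
    · rw [← sub_eq_add_neg]
    · simp only [el, Bool.not_true, cond_true, cond_false, map_mul, map_inv]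
      unfold rho
      rw [lift_of, lift_of, Sum.elim_inl, Sum.elim_inl, Tr_inv, Tr_mul]

lemma en_rho_true (s : D → ℝ) (hs : ∀ d, s d ≠ 0) (d : D) (ε : Bool) (c c' : OnePoint ℕ) :
    |en (rho s hs (zz d true ε c c'))| = |s d| * |tau c - tau c'| := by
  obtain ⟨t, ht, h⟩ := rho_inner s hs ε c c'
  have h1 : zz d true ε c c' = FT.of (Sum.inr d) * (el (Sum.inl c, ε) * el (Sum.inl c', !ε)) *
      (FT.of (Sum.inr d))⁻¹ := by
    rw [zz_eq]
    simp only [el, Bool.not_true, cond_true, cond_false, mul_one, mul_assoc]
  rw [h1, map_mul, map_mul, map_inv, h]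
  have h2 : rho s hs (FT.of (Sum.inr d)) = Sc (s d) (hs d) := lift_of _ _
  rw [h2, Sc_conj, en_Tr, abs_mul, ht]

lemma en_rho_false (s : D → ℝ) (hs : ∀ d, s d ≠ 0) (d : D) (ε : Bool) (c c' : OnePoint ℕ) :
    |en (rho s hs (zz d false ε c c'))| = |s d|⁻¹ * |tau c - tau c'| := by
  obtain ⟨t, ht, h⟩ := rho_inner s hs ε c c'
  have h1 : zz d false ε c c' = (FT.of (Sum.inr d))⁻¹ * (el (Sum.inl c, ε) *
      el (Sum.inl c', !ε)) * FT.of (Sum.inr d) := by
    rw [zz_eq]
    simp only [el, Bool.not_false, cond_true, cond_false, mul_one, mul_assoc]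
  rw [h1, map_mul, map_mul, map_inv, h]
  have h2 : rho s hs (FT.of (Sum.inr d)) = Sc (s d) (hs d) := lift_of _ _
  have h3 : (Sc (s d) (hs d))⁻¹ * Tr t * Sc (s d) (hs d) = Tr ((s d)⁻¹ * t) := by
    have h4 := Sc_conj (s d) ((s d)⁻¹ * t) (hs d)
    rw [← mul_assoc, mul_inv_cancel₀ (hs d), one_mul] at h4
    rw [← h4]
    group
  rw [h2, h3, en_Tr, abs_mul, ht, abs_inv]

/-- **Main theorem.** -/
theorem isKSpace_F4 : IsKSpace (Fn (CD D) 4) := by
  classical
  intro A hA
  set A' : Set (FT (CD D)) := Subtype.val '' A with hA'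
  -- traces on compact sets are compact
  have htr : ∀ Q : Set (FT (CD D)), IsCompact Q → Q ⊆ Fn (CD D) 4 → IsCompact (A' ∩ Q) := by
    intro Q hQ hQF
    set Q' : Set (Fn (CD D) 4) := Subtype.val ⁻¹' Q with hQ'
    have hQc : IsCompact Q' := by
      rw [Subtype.isCompact_iff, hQ', Subtype.image_preimage_coe, inter_eq_right.2 hQF]
      exact hQ
    have h2 := hA Q' hQc
    have h3 : IsCompact (A ∩ Q') := by
      have : CompactSpace Q' := isCompact_iff_compactSpace.1 hQc
      have h4 := h2.isCompact.image (continuous_subtype_val (p := fun x => x ∈ Q'))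
      rw [Subtype.image_preimage_coe, inter_comm] at h4
      exact h4
    have h5 : A' ∩ Q = Subtype.val '' (A ∩ Q') := by
      rw [hQ', image_inter_preimage]
    rw [h5]
    exact h3.image continuous_subtype_val
  have key : ∀ z : FT (CD D), z ∉ A' → ∃ O, IsOpen O ∧ z ∈ O ∧
      ∀ w ∈ O, w ∈ Fn (CD D) 4 → w ∉ A' := by
    intro z hzA
    by_cases hz : z = 1
    · subst hz
      -- the compact set of words without letters from `D`
      set ZC := Pn (range (Sum.inl : OnePoint ℕ → CD D)) 4 with hZC
      have hZCc : IsCompact ZC := Pn_compact (isCompact_range continuous_inl) 4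
      have hZA : IsCompact (A' ∩ ZC) := htr ZC hZCc (Pn_subset_Fn _ _)
      -- thresholds
      have hthr : ∀ (d : D) (δ : Bool), ∃ n : ℕ, ∀ ε c c', zz d δ ε c c' ∈ A' →
          1 ≤ (2 : ℝ) ^ n * |tau c - tau c'| := by
        intro d δ
        have h1 : ∀ ε, ∃ n : ℕ, ∀ c c', zz d δ ε c c' ∈ A' →
            1 ≤ (2 : ℝ) ^ n * |tau c - tau c'| := by
          intro ε
          have hQ : IsCompact (range fun p : OnePoint ℕ × OnePoint ℕ => zz d δ ε p.1 p.2) :=
            isCompact_range (continuous_zz d δ ε)
          have hQF : (range fun p : OnePoint ℕ × OnePoint ℕ => zz d δ ε p.1 p.2) ⊆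
              Fn (CD D) 4 := by
            rintro _ ⟨p, rfl⟩
            apply Pn_subset_Fn univ 4
            exact mkL_mem_Pn (fun _ _ => mem_univ _) (by simp)
          set S : Set (OnePoint ℕ × OnePoint ℕ) := (fun p => zz d δ ε p.1 p.2) ⁻¹'
            (A' ∩ range fun p : OnePoint ℕ × OnePoint ℕ => zz d δ ε p.1 p.2) with hS
          have hSc : IsCompact S :=
            ((htr _ hQ hQF).isClosed.preimage (continuous_zz d δ ε)).isCompact
          have hcont : Continuous fun p : OnePoint ℕ × OnePoint ℕ => |tau p.1 - tau p.2| :=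
            ((continuous_tau.comp continuous_fst).sub (continuous_tau.comp continuous_snd)).abs
          rcases S.eq_empty_or_nonempty with hemp | hne
          · refine ⟨0, fun c c' h => ?_⟩
            have : (c, c') ∈ S := ⟨h, (c, c'), rfl⟩
            rw [hemp] at this
            exact this.elim
          · obtain ⟨p, hp, hmin⟩ := hSc.exists_isMinOn hne hcont.continuousOn
            have hpos : 0 < |tau p.1 - tau p.2| := by
              rw [abs_pos, sub_ne_zero]
              intro heq
              have h2 := tau_injective heq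
              apply hzA
              have h3 : zz d δ ε p.1 p.2 ∈ A' := hp.1
              rwa [h2, zz_self] at h3
            obtain ⟨n, hn⟩ := pow_unbounded_of_one_lt (|tau p.1 - tau p.2|⁻¹) one_lt_two
            refine ⟨n, fun c c' h => ?_⟩
            have h2 : |tau p.1 - tau p.2| ≤ |tau c - tau c'| :=
              hmin (show (c, c') ∈ S from ⟨h, (c, c'), rfl⟩)
            have h3 : 1 ≤ (2 : ℝ) ^ n * |tau p.1 - tau p.2| := by
              have h4 := mul_lt_mul_of_pos_right hn hpos
              rw [inv_mul_cancel₀ hpos.ne'] at h4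
              exact h4.le
            have h4 : (2 : ℝ) ^ n * |tau p.1 - tau p.2| ≤ (2 : ℝ) ^ n * |tau c - tau c'| :=
              mul_le_mul_of_nonneg_left h2 (by positivity)
            linarith
        obtain ⟨n1, hn1⟩ := h1 true
        obtain ⟨n2, hn2⟩ := h1 false
        have hmono : ∀ {a b : ℕ} {r : ℝ}, a ≤ b → 0 ≤ r → 1 ≤ (2 : ℝ) ^ a * r →
            1 ≤ (2 : ℝ) ^ b * r := by
          intro a b r hab hr h
          have h2 : (2 : ℝ) ^ a ≤ 2 ^ b := pow_le_pow_right₀ one_le_two hab
          have h3 := mul_le_mul_of_nonneg_right h2 hr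
          linarith
        refine ⟨max n1 n2, fun ε c c' h => ?_⟩
        cases ε
        · exact hmono (le_max_right _ _) (abs_nonneg _) (hn2 c c' h)
        · exact hmono (le_max_left _ _) (abs_nonneg _) (hn1 c c' h)
      choose n hn using hthr
      -- the homomorphisms
      have hs1 : ∀ d, (2 : ℝ) ^ n d true ≠ 0 := fun d => by positivity
      have hs2 : ∀ d, ((2 : ℝ) ^ n d false)⁻¹ ≠ 0 := fun d => by positivity
      set r1 := rho (fun d => (2 : ℝ) ^ n d true) hs1 with hr1
      set r2 := rho (fun d => ((2 : ℝ) ^ n d false)⁻¹) hs2 with hr2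
      let κ : FT (CD D) →* FT (CD D) :=
        FT.lift (Sum.elim (fun c => FT.of (Sum.inl c)) fun _ => 1)
      have hκ : Continuous κ := continuous_lift
        ((continuous_of.comp continuous_inl).sumElim continuous_const)
      refine ⟨(fmap (fm D 0) ⁻¹' {1}) ∩ (κ ⁻¹' (A' ∩ ZC)ᶜ) ∩
        ((fun w => en (r1 w)) ⁻¹' (Ioo (-1) 1)) ∩ ((fun w => en (r2 w)) ⁻¹' (Ioo (-1) 1)),
        ?_, ?_, ?_⟩
      · refine ((IsOpen.inter ?_ ?_).inter ?_).inter ?_
        · exact isOpen_preimage (isLocallyConstant_fm 0 _) {1}
        · exact hZA.isClosed.isOpen_compl.preimage hκ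
        · exact isOpen_Ioo.preimage (continuous_en.comp (continuous_rho _ hs1))
        · exact isOpen_Ioo.preimage (continuous_en.comp (continuous_rho _ hs2))
      · have hen : en 1 = 0 := by
          have : (1 : M) = Tr 0 := by
            apply Units.ext
            ext i j; fin_cases i <;> fin_cases j <;> simp [Tr]
          rw [this, en_Tr]
        refine ⟨⟨⟨map_one _, ?_⟩, ?_⟩, ?_⟩
        · rw [mem_preimage, map_one]
          exact fun h => hzA h.1
        · simp only [mem_preimage, map_one, hen]
          constructor <;> norm_num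
        · simp only [mem_preimage, map_one, hen]
          constructor <;> norm_num
      · rintro w ⟨⟨⟨hw0, hwκ⟩, hw1⟩, hw2⟩ hwF hwA
        have hfm : fmap (fm D 0) w = FreeGroup.mk ((wd w).map fun p => (fm D 0 p.1, p.2)) := by
          rw [← fmap_mkL, mkL_wd]
        have hred : FreeGroup.reduce ((wd w).map fun p => (fm D 0 p.1, p.2)) = [] := by
          rw [← FreeGroup.toWord_mk, ← hfm, show fmap (fm D 0) w = 1 from hw0,
            FreeGroup.toWord_one]
        rcases comb (fm D 0) (fun x => ∃ d, x = Sum.inr d) (fun x hx x' h => fm_iso 0 x hx x' h)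
          (wd w) (wd_reduced w) hwF with h | ⟨a, x, y, δ, ε, hL, ⟨d, rfl⟩, hxy⟩
        · -- no letters from `D`
          have hlet : ∀ p ∈ wd w, p.1 ∈ range (Sum.inl : OnePoint ℕ → CD D) := by
            rintro ⟨x, b⟩ hp
            rcases x with c | d
            · exact ⟨c, rfl⟩
            · obtain ⟨b', hb'⟩ := h _ _ hp ⟨d, rfl⟩
              rw [hred] at hb'
              simp at hb'
          have hwZ : w ∈ ZC := mem_Pn hwF hlet
          have hκw : κ w = w := by
            have h1 : ∀ L : List (CD D × Bool),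
                (∀ p ∈ L, p.1 ∈ range (Sum.inl : OnePoint ℕ → CD D)) → κ (mkL L) = mkL L := by
              intro L
              induction L with
              | nil => intro _; exact map_one _
              | cons p L ih =>
                intro hp
                rw [mkL_cons, map_mul, ih fun q hq => hp q (List.mem_cons_of_mem _ hq)]
                congr 1
                obtain ⟨c, hc⟩ := hp p (by simp)
                rcases p with ⟨x, b⟩
                simp only at hc
                subst hc
                cases b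
                · change κ (FT.of (Sum.inl c))⁻¹ = (FT.of (Sum.inl c))⁻¹
                  rw [map_inv]
                  exact congrArg _ (lift_of _ _)
                · exact lift_of _ _
            rw [← mkL_wd w]
            exact h1 _ hlet
          rw [mem_preimage, hκw] at hwκ
          exact hwκ ⟨hwA, hwZ⟩
        · -- the exceptional words
          have hredL := wd_reduced w
          rw [hL] at hredL
          simp only [FreeGroup.IsReduced, List.isChain_cons_cons, List.isChain_singleton] at hredL
          obtain ⟨c, rfl⟩ : ∃ c, x = Sum.inl c := by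
            rcases x with c | e
            · exact ⟨c, rfl⟩
            · exfalso
              have := fm_iso 0 (Sum.inr e) ⟨e, rfl⟩ y hxy.symm
              have h2 := hredL.2.1 this.symm
              simp at h2
          obtain ⟨c', rfl⟩ : ∃ c', y = Sum.inl c' := by
            rcases y with c' | e
            · exact ⟨c', rfl⟩
            · exfalso
              have := fm_iso 0 (Sum.inr e) ⟨e, rfl⟩ (Sum.inl c) hxy
              simp at this
          have hwz : w = zz d δ ε c c' := by
            rw [← mkL_wd w, hL]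
            rfl
          rw [hwz] at hwA hw1 hw2
          have h3 := hn d δ ε c c' hwA
          cases δ
          · have h4 : |en (r2 (zz d false ε c c'))| < 1 := abs_lt.2 hw2
            rw [hr2, en_rho_false, abs_inv, inv_inv, abs_of_pos (by positivity)] at h4
            linarith
          · have h4 : |en (r1 (zz d true ε c c'))| < 1 := abs_lt.2 hw1
            rw [hr1, en_rho_true, abs_of_pos (by positivity)] at h4
            linarith
    · -- elements different from the identity
      obtain ⟨m, hm⟩ := exists_fmap_ne hz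
      set E : Set D := {d | ∃ b, ((Sum.inr d : ℕ ⊕ D), b) ∈ (fmap (fm D m) z).toWord} with hE
      have hEfin : E.Finite := by
        refine Set.Finite.subset (Set.Finite.preimage (f := (Sum.inr : D → ℕ ⊕ D))
          Sum.inr_injective.injOn (((fmap (fm D m) z).toWord.map Prod.fst).finite_toSet)) ?_
        rintro d ⟨b, hb⟩
        simp only [mem_preimage, mem_ofPred_eq, List.mem_map]
        exact ⟨_, hb, rfl⟩
      set S : Set (CD D) := range (Sum.inl : OnePoint ℕ → CD D) ∪ Sum.inr '' E with hS
      have hSc : IsCompact S :=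
        (isCompact_range continuous_inl).union (hEfin.image _).isCompact
      set Q := Pn S 4 with hQ
      have hQc : IsCompact Q := Pn_compact hSc 4
      have hQA : IsCompact (A' ∩ Q) := htr Q hQc (Pn_subset_Fn _ _)
      refine ⟨(fmap (fm D m) ⁻¹' {fmap (fm D m) z}) ∩ (A' ∩ Q)ᶜ, ?_, ?_, ?_⟩
      · exact (isOpen_preimage (isLocallyConstant_fm m _) _).inter hQA.isClosed.isOpen_compl
      · exact ⟨rfl, fun h => hzA h.1⟩
      · rintro w ⟨hw0, hwQ⟩ hwF hwA
        apply hwQ
        refine ⟨hwA, mem_Pn hwF ?_⟩
        have hfm : fmap (fm D m) w = FreeGroup.mk ((wd w).map fun p => (fm D m p.1, p.2)) := by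
          rw [← fmap_mkL, mkL_wd]
        have hred : FreeGroup.reduce ((wd w).map fun p => (fm D m p.1, p.2)) =
            (fmap (fm D m) z).toWord := by
          rw [← FreeGroup.toWord_mk, ← hfm, show fmap (fm D m) w = fmap (fm D m) z from hw0]
        rcases comb (fm D m) (fun x => ∃ d, x = Sum.inr d) (fun x hx x' h => fm_iso m x hx x' h)
          (wd w) (wd_reduced w) hwF with h | ⟨a, x, y, δ, ε, hL, -, hxy⟩
        · rintro ⟨x, b⟩ hp
          rcases x with c | d
          · exact Or.inl ⟨c, rfl⟩
          · obtain ⟨b', hb'⟩ := h _ _ hp ⟨d, rfl⟩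
            rw [hred] at hb'
            exact Or.inr ⟨d, ⟨b', hb'⟩, rfl⟩
        · exfalso
          apply hm
          rw [← show fmap (fm D m) w = fmap (fm D m) z from hw0, hfm, hL]
          simp only [List.map_cons, List.map_nil, hxy]
          have e1 : (FreeGroup.mk [(fm D m a, δ), (fm D m y, ε), (fm D m y, !ε), (fm D m a, !δ)] :
              FreeGroup (ℕ ⊕ D)) = FreeGroup.mk [(fm D m a, δ), (fm D m a, !δ)] :=
            Quot.sound (FreeGroup.Red.Step.not (L₁ := [(fm D m a, δ)]) (L₂ := [(fm D m a, !δ)]))
          have e2 : (FreeGroup.mk [(fm D m a, δ), (fm D m a, !δ)] :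
              FreeGroup (ℕ ⊕ D)) = FreeGroup.mk [] :=
            Quot.sound (FreeGroup.Red.Step.not (L₁ := []) (L₂ := []))
          rw [e1, e2]
          rfl
  rw [← isOpen_compl_iff, isOpen_iff_mem_nhds]
  rintro ⟨z, hzF⟩ hz
  have hzA : z ∉ A' := by
    rintro ⟨w, hw, rfl⟩
    exact hz hw
  obtain ⟨O, hO, hzO, hOA⟩ := key z hzA
  have h1 : (Subtype.val : Fn (CD D) 4 → FT (CD D)) ⁻¹' O ∈ 𝓝 (⟨z, hzF⟩ : Fn (CD D) 4) :=
    (hO.preimage continuous_subtype_val).mem_nhds hzO
  refine Filter.mem_of_superset h1 fun w hw hwA => ?_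
  exact hOA w hw w.2 ⟨w, hwA, rfl⟩

end main

end Pool.Agent.V11281.F4
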