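import Pool.Agent.V11281.F4.Basic

/-!
# Words of length at most four over a convergent sequence plus a discrete space
-/

set_option autoImplicit false

open Set Topology Filter
open scoped Pointwise

namespace Pool.Agent.V11281.F4

universe u v

/-- cancellation patterns in images of reduced words of length at most four -/
lemma comb {X Y : Type*} [DecidableEq X] [DecidableEq Y] (f : X → Y) (P : X → Prop)
    (hP : ∀ x, P x → ∀ x', f x' = f x → x' = x) (L : List (X × Bool)) (hL : FreeGroup.IsReduced L)
    (hlen : L.length ≤ 4) :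
    (∀ x b, (x, b) ∈ L → P x →
      ∃ b', (f x, b') ∈ FreeGroup.reduce (L.map fun p => (f p.1, p.2))) ∨
    (∃ (a x y : X) (δ ε : Bool), L = [(a, δ), (x, ε), (y, !ε), (a, !δ)] ∧ P a ∧ f x = f y) := by
  rcases L with _ | ⟨⟨a, α⟩, L⟩
  · left; simp
  rcases L with _ | ⟨⟨b, β⟩, L⟩
  · left
    intro x c hx hPx
    simp at hx
    refine ⟨α, ?_⟩
    simp [FreeGroup.reduce.cons, hx.1]
  rcases L with _ | ⟨⟨c, γ⟩, L⟩
  · left
    intro x e hx hPx
    simp only [List.map_cons, List.map_nil, FreeGroup.reduce.cons, FreeGroup.reduce_nil]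
    simp only [FreeGroup.IsReduced, List.isChain_cons_cons, List.isChain_singleton] at hL
    simp only [List.mem_cons, Prod.mk.injEq, List.not_mem_nil, or_false] at hx
    split_ifs <;> (try dsimp only) <;> (try split_ifs) <;> (try dsimp only) <;> (try split_ifs) <;>
      simp only [List.mem_cons, Prod.mk.injEq, List.not_mem_nil, or_false] <;> grind
  rcases L with _ | ⟨⟨d, η⟩, L⟩
  · left
    intro x e hx hPx
    simp only [List.map_cons, List.map_nil, FreeGroup.reduce.cons, FreeGroup.reduce_nil]
    simp only [FreeGroup.IsReduced, List.isChain_cons_cons, List.isChain_singleton] at hL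
    simp only [List.mem_cons, Prod.mk.injEq, List.not_mem_nil, or_false] at hx
    split_ifs <;> (try dsimp only) <;> (try split_ifs) <;> (try dsimp only) <;> (try split_ifs) <;>
      simp only [List.mem_cons, Prod.mk.injEq, List.not_mem_nil, or_false] <;> grind
  have hL' : L = [] := by
    simp only [List.length_cons] at hlen
    exact List.eq_nil_of_length_eq_zero (by omega)
  subst hL'
  simp only [List.map_cons, List.map_nil, FreeGroup.reduce.cons, FreeGroup.reduce_nil]
  simp only [FreeGroup.IsReduced, List.isChain_cons_cons, List.isChain_singleton] at hL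
  by_cases hcase : f a = f d ∧ α = !η ∧ f b = f c ∧ β = !γ ∧ P a
  · right
    refine ⟨a, b, c, α, β, ?_, hcase.2.2.2.2, hcase.2.2.1⟩
    have := hP a hcase.2.2.2.2 d hcase.1.symm
    rw [this, hcase.2.1, hcase.2.2.2.1]
    simp
  · left
    intro x e hx hPx
    simp only [List.mem_cons, Prod.mk.injEq, List.not_mem_nil, or_false] at hx
    split_ifs <;> (try dsimp only) <;> (try split_ifs) <;> (try dsimp only) <;> (try split_ifs) <;>
      simp only [List.mem_cons, Prod.mk.injEq, List.not_mem_nil, or_false] <;> grind

section words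

variable {X : Type u} [TopologicalSpace X]

/-- the reduced word -/
noncomputable def wd (w : FT X) : List (X × Bool) :=
  (open Classical in FreeGroup.toWord (show FreeGroup X from w))

/-- the element of a word -/
def mkL (L : List (X × Bool)) : FT X := (FreeGroup.mk L : FreeGroup X)

/-- letters -/
def el (p : X × Bool) : FT X := cond p.2 (FT.of p.1) (FT.of p.1)⁻¹

lemma mkL_wd (w : FT X) : mkL (wd w) = w := by
  classical
  exact FreeGroup.mk_toWord

lemma wd_reduced (w : FT X) : FreeGroup.IsReduced (wd w) := by
  classical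
  exact FreeGroup.isReduced_toWord

lemma mkL_nil : mkL ([] : List (X × Bool)) = 1 := rfl

lemma mkL_singleton (p : X × Bool) : mkL [p] = el p := by
  rcases p with ⟨x, b⟩
  cases b
  · change (FreeGroup.mk [(x, false)] : FreeGroup X) = (FreeGroup.of x)⁻¹
    rfl
  · rfl

lemma mkL_cons (p : X × Bool) (L : List (X × Bool)) : mkL (p :: L) = el p * mkL L := by
  rw [← mkL_singleton]
  exact (FreeGroup.mul_mk (L₁ := [p]) (L₂ := L)).symm

lemma continuous_el (b : Bool) : Continuous fun x : X => el (x, b) := by
  cases b
  · exact continuous_of.inv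
  · exact continuous_of

lemma wd_eq_nil {w : FT X} : wd w = [] ↔ w = 1 := by
  classical
  exact FreeGroup.toWord_eq_nil_iff

lemma lift_mkL {G : Type v} [Group G] (f : X → G) (L : List (X × Bool)) :
    FT.lift f (mkL L) = (L.map fun p => cond p.2 (f p.1) (f p.1)⁻¹).prod := FreeGroup.lift_mk

/-- the homomorphism of free groups induced by a map -/
noncomputable def fmap {Y : Type v} (f : X → Y) : FT X →* FreeGroup Y :=
  FT.lift fun x => FreeGroup.of (f x)

lemma fmap_mkL {Y : Type v} (f : X → Y) (L : List (X × Bool)) :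
    fmap f (mkL L) = FreeGroup.mk (L.map fun p => (f p.1, p.2)) := by
  induction L with
  | nil => exact map_one _
  | cons p L ih =>
    rw [mkL_cons, map_mul, ih, List.map_cons]
    have h1 : fmap f (el p) = FreeGroup.mk [(f p.1, p.2)] := by
      rcases p with ⟨x, b⟩
      cases b
      · change FT.lift _ (FT.of x)⁻¹ = _
        rw [map_inv, lift_of]
        rfl
      · change FT.lift _ (FT.of x) = _
        rw [lift_of]
        rfl
    rw [h1, FreeGroup.mul_mk]
    rfl

/-- the length-`n` part of the free group -/
lemma mem_Fn {n : ℕ} {w : FT X} : w ∈ Fn X n ↔ (wd w).length ≤ n := Iff.rfl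

lemma len_mul (a b : FT X) : (wd (a * b)).length ≤ (wd a).length + (wd b).length := by
  classical
  exact FreeGroup.norm_mul_le (show FreeGroup X from a) (show FreeGroup X from b)

lemma len_el (p : X × Bool) : (wd (el p)).length ≤ 1 := by
  classical
  rw [← mkL_singleton]
  exact FreeGroup.norm_mk_le (L₁ := [p])

/-- products of at most `n` letters from a set -/
def Lam (S : Set X) : Set (FT X) := insert 1 (⋃ b : Bool, (fun x => el (x, b)) '' S)

lemma Lam_compact {S : Set X} (hS : IsCompact S) : IsCompact (Lam S) := by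
  refine IsCompact.insert ?_ _
  exact isCompact_iUnion fun b => hS.image (continuous_el b)

lemma one_mem_Lam (S : Set X) : (1 : FT X) ∈ Lam S := mem_insert _ _

lemma el_mem_Lam {S : Set X} {x : X} (hx : x ∈ S) (b : Bool) : el (x, b) ∈ Lam S :=
  Or.inr (mem_iUnion.2 ⟨b, x, hx, rfl⟩)

/-- powers of sets, defined by recursion -/
def Pn (S : Set X) : ℕ → Set (FT X)
  | 0 => {1}
  | (n + 1) => Lam S * Pn S n

lemma Pn_compact {S : Set X} (hS : IsCompact S) (n : ℕ) : IsCompact (Pn S n) := by
  induction n with
  | zero => exact isCompact_singleton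
  | succ n ih => exact (Lam_compact hS).mul ih

lemma one_mem_Pn (S : Set X) (n : ℕ) : (1 : FT X) ∈ Pn S n := by
  induction n with
  | zero => exact rfl
  | succ n ih => exact ⟨1, one_mem_Lam S, 1, ih, one_mul 1⟩

lemma mkL_mem_Pn {S : Set X} {L : List (X × Bool)} (h : ∀ p ∈ L, p.1 ∈ S) {n : ℕ}
    (hn : L.length ≤ n) : mkL L ∈ Pn S n := by
  induction n generalizing L with
  | zero =>
    have : L = [] := List.eq_nil_of_length_eq_zero (by omega)
    subst this
    exact rfl
  | succ n ih =>
    rcases L with _ | ⟨p, L⟩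
    · exact one_mem_Pn S _
    · rw [mkL_cons]
      exact ⟨_, el_mem_Lam (h p (by simp)) p.2, _, ih (fun q hq => h q (by simp [hq]))
        (by simpa using hn), rfl⟩

lemma Pn_subset_Fn (S : Set X) (n : ℕ) : Pn S n ⊆ Fn X n := by
  induction n with
  | zero =>
    intro w hw
    rw [show w = 1 from hw, mem_Fn, wd_eq_nil.2 rfl]
    simp
  | succ n ih =>
    rintro _ ⟨a, ha, b, hb, rfl⟩
    rw [mem_Fn]
    have h1 : (wd a).length ≤ 1 := by
      rcases ha with rfl | ha
      · rw [wd_eq_nil.2 rfl]; simp
      · obtain ⟨c, x, _, rfl⟩ := mem_iUnion.1 ha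
        exact len_el _
    have h2 : (wd b).length ≤ n := ih hb
    have h3 := len_mul a b
    change (wd (a * b)).length ≤ n + 1
    omega

end words

end Pool.Agent.V11281.F4
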